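import Pool.Agent.H345.X24.Tam

/-!
# Twists of `X_0(24)`: the rational torsion points
-/

set_option autoImplicit false
set_option linter.all false

open scoped Classical

open WeierstrassCurve

namespace Pool.Agent.H345.X24

open Pool.Agent.N971.MF (W)
open Pool.Agent.Y809.BSD14

/-- the curve over `ℚ` -/
abbrev EQ (n : ℕ) : WeierstrassCurve ℚ := (W n).map (Int.castRingHom ℚ)

section

variable {n : ℕ}

theorem d_n (hn : n % 8 = 3) : ‖(n : ℚ_[2])‖ = 1 := by
  have := norm_odd (n := (n : ℤ)) (by omega)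
  exact_mod_cast this

theorem d_n3 : ‖(3 : ℚ_[2])‖ = 1 := by
  have := norm_odd (n := 3) (by norm_num)
  exact_mod_cast this

theorem d_add {a b : ℚ_[2]} (h : ‖b‖ < ‖a‖) : ‖a + b‖ = ‖a‖ := norm_eq_of_lt h

theorem eqn_q {P : (EQ n).toAffine.Point} {x y : ℚ} (hP : At P x y) :
    y ^ 2 = x * (x + n) * (x - 3 * n) := by
  have := hP.eqn (isE (K := ℚ) n)
  linear_combination this

theorem dbl_q {P : (EQ n).toAffine.Point} {x y : ℚ} (hP : At P x y) (hy : y ≠ 0) :
    ∃ y3, At (P + P) ((x ^ 2 + 3 * n ^ 2) ^ 2 / (4 * y ^ 2)) y3 := by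
  obtain ⟨y3, h⟩ := hP.dbl (isE (K := ℚ) n) two_ne_zero hy
  refine ⟨y3, ?_⟩
  have e : x ^ 2 - -(3 * (n : ℚ) ^ 2) = x ^ 2 + 3 * n ^ 2 := by ring
  rw [← e]
  exact h

/-- a point with `|x|₂ > 1` has infinite order -/
theorem big_pt (hn : n % 8 = 3) {P : (EQ n).toAffine.Point} {x y : ℚ} (hP : At P x y)
    (hX : 1 < ‖(x : ℚ_[2])‖) : ¬ IsOfFinAddOrder P := by
  have hm := d_n hn
  -- one step
  have step : ∀ (P : (EQ n).toAffine.Point) (x y : ℚ), At P x y → 1 < ‖(x : ℚ_[2])‖ →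
      ∃ x' y' : ℚ, At (P + P) x' y' ∧ ‖(x' : ℚ_[2])‖ = 4 * ‖(x : ℚ_[2])‖ := by
    intro P x y hP hX
    have he := eqn_q hP
    have heP : (y : ℚ_[2]) ^ 2 = x * (x + n) * (x + -(3 * n)) := by
      have h1 : (y : ℚ_[2]) ^ 2 = x * (x + n) * (x - 3 * n) := by exact_mod_cast he
      rw [h1]
      ring
    have h1 : ‖(n : ℚ_[2])‖ < ‖(x : ℚ_[2])‖ := by
      rw [hm]
      exact hX
    have h3 : ‖-((3 : ℚ_[2]) * n)‖ < ‖(x : ℚ_[2])‖ := by
      rw [norm_neg, norm_mul, hm, d_n3, one_mul]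
      exact hX
    have hY2 : ‖(y : ℚ_[2])‖ ^ 2 = ‖(x : ℚ_[2])‖ ^ 3 := by
      rw [← norm_pow, heP, norm_mul, norm_mul, d_add h1, d_add h3]
      ring
    have hXp : 0 < ‖(x : ℚ_[2])‖ := by linarith
    have hY0 : (y : ℚ_[2]) ≠ 0 := by
      intro h
      rw [h, norm_zero] at hY2
      have : 0 < ‖(x : ℚ_[2])‖ ^ 3 := by positivity
      rw [← hY2] at this
      norm_num at this
    have hYq : y ≠ 0 := by
      intro h
      apply hY0
      rw [h, Rat.cast_zero]
    obtain ⟨y', h'⟩ := dbl_q hP hYq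
    refine ⟨_, y', h', ?_⟩
    push_cast
    rw [norm_div, norm_pow, norm_mul, norm_pow, norm_four, hY2]
    have h3 : ‖(x : ℚ_[2]) ^ 2 + 3 * (n : ℚ_[2]) ^ 2‖ = ‖(x : ℚ_[2])‖ ^ 2 := by
      rw [← norm_pow]
      apply d_add
      rw [norm_mul, norm_pow, hm, norm_pow, d_n3]
      nlinarith
    rw [h3]
    field_simp
  have all : ∀ k : ℕ, ∃ x' y' : ℚ, At (2 ^ k • P) x' y' ∧
      ‖(x' : ℚ_[2])‖ = 4 ^ k * ‖(x : ℚ_[2])‖ := by
    intro k
    induction k with
    | zero => exact ⟨x, y, by rw [pow_zero, one_nsmul]; exact hP, by rw [pow_zero, one_mul]⟩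
    | succ k ih =>
      obtain ⟨x1, y1, h3, h4⟩ := ih
      have h5 : 1 < ‖(x1 : ℚ_[2])‖ := by
        rw [h4]
        have : (1 : ℝ) ≤ 4 ^ k := one_le_pow₀ (by norm_num)
        nlinarith
      obtain ⟨x2, y2, h6, h7⟩ := step _ _ _ h3 h5
      refine ⟨x2, y2, ?_, ?_⟩
      · rw [pow_succ, mul_nsmul, two_nsmul]
        exact h6
      · rw [h7, h4, pow_succ]
        ring
  intro hfin
  have hf : (AddSubmonoid.multiples P : Set (EQ n).toAffine.Point).Finite :=
    finite_multiples.2 hfin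
  refine Set.infinite_of_injective_forall_mem (f := fun k : ℕ => 2 ^ k • P) ?_ ?_ hf
  · intro a b hab
    simp only at hab
    obtain ⟨x1, y1, h1, e1⟩ := all a
    obtain ⟨x2, y2, h3, e2⟩ := all b
    rw [hab] at h1
    have h4 := (h1.unique h3).1
    rw [h4, e2] at e1
    have h5 : (0 : ℝ) < ‖(x : ℚ_[2])‖ := by linarith
    have h6 : (4 : ℝ) ^ b = 4 ^ a := mul_right_cancel₀ h5.ne' e1
    exact (pow_right_injective₀ (by norm_num : (0 : ℝ) < 4) (by norm_num) h6).symm
  · intro k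
    exact ⟨2 ^ k, rfl⟩

/-- a rational point with `y ≠ 0` has infinite order -/
theorem inf_pt (hn : n % 8 = 3) {P : (EQ n).toAffine.Point} {x y : ℚ} (hP : At P x y)
    (hy : y ≠ 0) : ¬ IsOfFinAddOrder P := by
  have hm := d_n hn
  have he := eqn_q hP
  have heP : (y : ℚ_[2]) ^ 2 = x * (x + n) * (x - 3 * n) := by exact_mod_cast he
  have hyP : (y : ℚ_[2]) ≠ 0 := by exact_mod_cast hy
  have hyp : 0 < ‖(y : ℚ_[2])‖ ^ 2 := by positivity
  rcases lt_trichotomy ‖(x : ℚ_[2])‖ 1 with hX | hX | hX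
  · -- `|x| < 1`
    have a1 : ‖(x : ℚ_[2]) + n‖ = 1 := by
      rw [add_comm, d_add (by rw [hm]; exact hX), hm]
    have a2 : ‖(x : ℚ_[2]) - 3 * n‖ = 1 := by
      have h3n : ‖-((3 : ℚ_[2]) * n)‖ = 1 := by rw [norm_neg, norm_mul, hm, d_n3, one_mul]
      rw [sub_eq_add_neg, add_comm, d_add (by rw [h3n]; exact hX), h3n]
    have hY2 : ‖(y : ℚ_[2])‖ ^ 2 = ‖(x : ℚ_[2])‖ := by
      rw [← norm_pow, heP, norm_mul, norm_mul, a1, a2, mul_one, mul_one]
    obtain ⟨y', h'⟩ := dbl_q hP hy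
    have hb : 1 < ‖(((x ^ 2 + 3 * n ^ 2) ^ 2 / (4 * y ^ 2) : ℚ) : ℚ_[2])‖ := by
      push_cast
      rw [norm_div, norm_pow, norm_mul, norm_pow, norm_four]
      have h3 : ‖(x : ℚ_[2]) ^ 2 + 3 * (n : ℚ_[2]) ^ 2‖ = 1 := by
        have h3n : ‖(3 : ℚ_[2]) * n ^ 2‖ = 1 := by
          rw [norm_mul, norm_pow, hm, d_n3]
          norm_num
        rw [add_comm, d_add, h3n]
        rw [h3n, norm_pow]
        exact pow_lt_one₀ (norm_nonneg _) hX two_ne_zero
      rw [h3, lt_div_iff₀ (by positivity), hY2]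
      linarith
    intro hfin
    refine big_pt hn h' hb ?_
    rw [← two_nsmul]
    exact hfin.nsmul
  · -- `|x| = 1`
    have s1 := sum_odd hX hm
    have ne2 : ‖(x : ℚ_[2]) + n‖ ≠ 1 / 2 := by
      intro h8
      refine excl (n := n) (by omega) (u := ((x : ℚ_[2]) + n) / 2) (s := y / 2) ?_ ?_
      · rw [norm_div, h8, norm_two]
        norm_num
      · push_cast
        field_simp
        linear_combination heP
    have s2 : ‖(x : ℚ_[2]) + n‖ ≤ 1 / 4 := le_quarter (lt_of_le_of_ne s1 ne2)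
    have s3 : ‖(x : ℚ_[2]) - 3 * n‖ ≤ 1 / 4 := by
      have e : (x : ℚ_[2]) - 3 * n = (x + n) + -(4 * n) := by ring
      rw [e]
      refine (Padic.nonarchimedean _ _).trans (max_le s2 ?_)
      rw [norm_neg, norm_mul, norm_four, hm, mul_one]
    have hY2 : ‖(y : ℚ_[2])‖ ^ 2 ≤ 1 / 16 := by
      rw [← norm_pow, heP, norm_mul, norm_mul, hX, one_mul]
      have := norm_nonneg ((x : ℚ_[2]) + n)
      have := norm_nonneg ((x : ℚ_[2]) - 3 * n)
      nlinarith
    obtain ⟨y', h'⟩ := dbl_q hP hy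
    have hb : 1 < ‖(((x ^ 2 + 3 * n ^ 2) ^ 2 / (4 * y ^ 2) : ℚ) : ℚ_[2])‖ := by
      push_cast
      rw [norm_div, norm_pow, norm_mul, norm_pow, norm_four]
      have h3 : ‖(x : ℚ_[2]) ^ 2 + 3 * (n : ℚ_[2]) ^ 2‖ = 1 / 4 := by
        have e : (x : ℚ_[2]) ^ 2 + 3 * (n : ℚ_[2]) ^ 2 = 4 * n ^ 2 + (x - n) * (x + n) := by ring
        have e4 : ‖(4 : ℚ_[2]) * n ^ 2‖ = 1 / 4 := by
          rw [norm_mul, norm_pow, hm, norm_four]
          norm_num
        have s4 : ‖(x : ℚ_[2]) - n‖ ≤ 1 / 2 := by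
          have h5 := sum_odd hX (by rw [norm_neg]; exact hm : ‖-(n : ℚ_[2])‖ = 1)
          rwa [← sub_eq_add_neg] at h5
        rw [e, d_add, e4]
        rw [e4, norm_mul]
        have := norm_nonneg ((x : ℚ_[2]) + n)
        have := norm_nonneg ((x : ℚ_[2]) - n)
        nlinarith
      rw [h3, lt_div_iff₀ (by positivity)]
      linarith
    intro hfin
    refine big_pt hn h' hb ?_
    rw [← two_nsmul]
    exact hfin.nsmul
  · exact big_pt hn hP hX

/-- the order of the torsion subgroup of the twist is four -/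
theorem tors_card (hn : n % 8 = 3) :
    Nat.card (AddCommGroup.torsion (EQ n).toAffine.Point) = 4 := by
  have hW := isE (K := ℚ) n
  have h2 : (2 : ℚ) ≠ 0 := two_ne_zero
  have hn0 : n ≠ 0 := by omega
  have hM0 : (n : ℚ) ≠ 0 := by exact_mod_cast hn0
  have ex : ∀ {x : ℚ}, x * (x + n) * (x - 3 * n) = 0 → ∃ P : (EQ n).toAffine.Point, At P x 0 := by
    intro x h
    refine exists_pt hW h2 ?_ ?_ ?_
    · exact neg_ne_zero.2 (mul_ne_zero (by norm_num) (pow_ne_zero _ hM0))
    · have : (-(2 * (n : ℚ))) ^ 2 - 4 * -(3 * (n : ℚ) ^ 2) = 16 * (n : ℚ) ^ 2 := by ring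
      rw [this]
      exact mul_ne_zero (by norm_num) (pow_ne_zero _ hM0)
    · linear_combination -h
  obtain ⟨T0, hT0⟩ := ex (x := 0) (by ring)
  obtain ⟨T1, hT1⟩ := ex (x := -n) (by ring)
  obtain ⟨T2, hT2⟩ := ex (x := 3 * n) (by ring)
  have key : ((AddCommGroup.torsion (EQ n).toAffine.Point : AddSubgroup _) :
      Set (EQ n).toAffine.Point) = (({0, T0, T1, T2} : Finset (EQ n).toAffine.Point) :
        Set (EQ n).toAffine.Point) := by
    ext P
    simp only [SetLike.mem_coe, Finset.coe_insert, Finset.coe_singleton, Set.mem_insert_iff,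
      Set.mem_singleton_iff]
    constructor
    · intro hP
      have hfin : IsOfFinAddOrder P := hP
      by_cases hP0 : P = 0
      · exact Or.inl hP0
      right
      obtain ⟨x, y, he⟩ := exists_at hP0
      have hy : y = 0 := by
        by_contra hy
        exact inf_pt hn he hy hfin
      rw [hy] at he
      have h4 : x * (x + n) * (x - 3 * n) = 0 := by
        have := eqn_q he
        linear_combination -this
      rcases mul_eq_zero.1 h4 with h5 | h5
      · rcases mul_eq_zero.1 h5 with h6 | h6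
        · left
          rw [h6] at he
          exact he.ext hT0
        · right; left
          have h7 : x = -n := by linarith
          rw [h7] at he
          exact he.ext hT1
      · right; right
        have h7 : x = 3 * n := by linarith
        rw [h7] at he
        exact he.ext hT2
    · have hall : ∀ (T : (EQ n).toAffine.Point), T + T = 0 → T ∈ (AddCommGroup.torsion _ :
          AddSubgroup (EQ n).toAffine.Point) := by
        intro T hT
        show IsOfFinAddOrder T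
        rw [isOfFinAddOrder_iff_nsmul_eq_zero]
        exact ⟨2, by norm_num, by rw [two_nsmul]; exact hT⟩
      rintro (rfl | rfl | rfl | rfl)
      · exact hall _ (add_zero _)
      · exact hall _ (two_tors hW hT0)
      · exact hall _ (two_tors hW hT1)
      · exact hall _ (two_tors hW hT2)
  have n1 : (0 : (EQ n).toAffine.Point) ≠ T0 := hT0.ne_zero.symm
  have n2 : (0 : (EQ n).toAffine.Point) ≠ T1 := hT1.ne_zero.symm
  have n3 : (0 : (EQ n).toAffine.Point) ≠ T2 := hT2.ne_zero.symm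
  have n4 : T0 ≠ T1 := by
    intro h
    rw [h] at hT0
    have := (hT0.unique hT1).1
    apply hM0
    linarith
  have n5 : T0 ≠ T2 := by
    intro h
    rw [h] at hT0
    have := (hT0.unique hT2).1
    apply hM0
    linarith
  have n6 : T1 ≠ T2 := by
    intro h
    rw [h] at hT1
    have := (hT1.unique hT2).1
    apply hM0
    linarith
  have hc : Nat.card (AddCommGroup.torsion (EQ n).toAffine.Point) =
      (({0, T0, T1, T2} : Finset (EQ n).toAffine.Point) : Set (EQ n).toAffine.Point).ncard := by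
    rw [← key]
    rfl
  rw [hc, Set.ncard_coe_finset, Finset.card_insert_of_notMem, Finset.card_insert_of_notMem,
    Finset.card_insert_of_notMem, Finset.card_singleton]
  · simp only [Finset.mem_singleton]
    exact n6
  · simp only [Finset.mem_insert, Finset.mem_singleton, not_or]
    exact ⟨n4, n5⟩
  · simp only [Finset.mem_insert, Finset.mem_singleton, not_or]
    exact ⟨n1, n2, n3⟩

end

end Pool.Agent.H345.X24
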