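import Pool.Agent.H345.X24.SelC
import Pool.Agent.H345.X24.Tors
import Pool.Graph.R_pool_sql_team_seeded_620a6dc7.H757_X15.MT.MOD
import Pool.Graph.R_pool_sql_team_seeded_63374d34.N877.P24.LV
import Pool.Graph.R_pool_sql_team_seeded_63374d34.N877.P24.LE
import Pool.Graph.R_pool_sql_team_seeded_63374d34.N878.P24.Par

/-!
# Twists of `X_0(24)`: the equation, the Tamagawa numbers, torsion, `Ш`
-/

set_option autoImplicit false
set_option linter.all false

open scoped Classical

open WeierstrassCurve

namespace Pool.Agent.H345.X24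

open Pool.Agent.N971.MF (W)
open Pool.Agent.Y700 (SingRed E0 tam PtP Omega)
open Pool.Agent.NH3.XT (Loc Sel)
open Pool.Agent.H464.XB (Md sel_formula sel_four Red card_red card_two red_one nx_eq)
open Pool.Agent.TH841.SH.D (ShaTor rk Sha)

/-- the class of the twists -/
structure Twn (n : ℕ) : Prop where
  sq : Squarefree n
  md : n % 24 = 11

namespace Twn

variable {n : ℕ} (h : Twn n)

include h

theorem ne : n ≠ 0 := by have := h.md; omega

theorem m8 : n % 8 = 3 := by have := h.md; omega

theorem n3 : ¬ 3 ∣ n := by have := h.md; omega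

theorem n2 : ¬ 2 ∣ n := by have := h.md; omega

theorem cl : Cl (n : ℤ) where
  pos := by have := h.md; omega
  sq := Int.squarefree_natCast.2 h.sq
  md := by have := h.md; omega

end Twn

theorem EQ_eq (n : ℕ) : EQ n = EW (n : ℤ) := by
  ext
  · show (((0 : ℤ)) : ℚ) = 0
    norm_num
  · show (((-(2 * n) : ℤ)) : ℚ) = -(2 * ((n : ℤ) : ℚ))
    push_cast
    ring
  · show (((0 : ℤ)) : ℚ) = 0
    norm_num
  · show (((-(3 * n ^ 2) : ℤ)) : ℚ) = -(3 * ((n : ℤ) : ℚ) ^ 2)
    push_cast
    ring
  · show (((0 : ℤ)) : ℚ) = 0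
    norm_num

theorem delta_W (n : ℕ) : (W n).Δ = 2304 * (n : ℤ) ^ 6 := by
  simp only [W, WeierstrassCurve.Δ, WeierstrassCurve.b₂, WeierstrassCurve.b₄,
    WeierstrassCurve.b₆, WeierstrassCurve.b₈]
  ring

/-- the product of the Tamagawa numbers -/
noncomputable def TamProd (W : WeierstrassCurve ℤ) : ℕ :=
  ∏ p ∈ W.Δ.natAbs.primeFactors, if h : p.Prime then (haveI := Fact.mk h; tam W p) else 1

theorem tamProd_eq {n : ℕ} (h : Twn n) : TamProd (W n) = 4 ^ (n.primeFactors.card + 1) := by
  have hn0 := h.ne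
  have hΔ : (W n).Δ.natAbs = 2 ^ 8 * (3 ^ 2 * n ^ 6) := by
    rw [delta_W, Int.natAbs_mul, Int.natAbs_pow, Int.natAbs_natCast]
    norm_num
    ring
  have hpf : (W n).Δ.natAbs.primeFactors = insert 2 (insert 3 n.primeFactors) := by
    rw [hΔ, Nat.primeFactors_mul (by norm_num) (by positivity), Nat.primeFactors_mul (by norm_num)
      (by positivity), Nat.primeFactors_prime_pow (by norm_num) Nat.prime_two,
      Nat.primeFactors_prime_pow (by norm_num) Nat.prime_three, Nat.primeFactors_pow _ (by norm_num)]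
    rfl
  unfold TamProd
  rw [hpf, Finset.prod_insert, Finset.prod_insert]
  · have h2 : (if h : Nat.Prime 2 then (haveI := Fact.mk h; tam (W n) 2) else 1) = 2 := by
      rw [dif_pos Nat.prime_two]
      haveI := Fact.mk Nat.prime_two
      exact tam_two h.m8
    have h3 : (if h : Nat.Prime 3 then (haveI := Fact.mk h; tam (W n) 3) else 1) = 2 := by
      rw [dif_pos Nat.prime_three]
      haveI := Fact.mk Nat.prime_three
      exact tam_three h.n3
    rw [h2, h3]
    have h6 : ∀ p ∈ n.primeFactors,
        (if h : p.Prime then (haveI := Fact.mk h; tam (W n) p) else 1) = 4 := by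
      intro p hp
      have hpp := Nat.prime_of_mem_primeFactors hp
      have hpd := Nat.dvd_of_mem_primeFactors hp
      rw [dif_pos hpp]
      haveI := Fact.mk hpp
      refine (BadP.of (q := p) (n := n) ?_ ?_ hpd h.sq).tam
      · rintro rfl
        exact h.n2 hpd
      · rintro rfl
        exact h.n3 hpd
    rw [Finset.prod_congr rfl h6, Finset.prod_const, pow_succ]
    ring
  · intro hh
    exact h.n3 (Nat.dvd_of_mem_primeFactors hh)
  · rw [Finset.mem_insert, not_or]
    exact ⟨by norm_num, fun hh => h.n2 (Nat.dvd_of_mem_primeFactors hh)⟩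

/-- the minimality of the equation -/
theorem minimal_W {n : ℕ} (h : Twn n) : Pool.Agent.W97.MT.IsGloballyMinimal (W n) := by
  have hn0 := h.ne
  refine Pool.Agent.H757_X15.min_of (D := 2 ^ 8 * (3 ^ 2 * n ^ 6)) (by positivity) ?_ ?_
  · rw [delta_W, abs_mul, abs_pow, Nat.abs_cast]
    push_cast
    norm_num
    ring
  · intro d hd
    by_contra hd1
    obtain ⟨p, hp, hpd⟩ := Nat.exists_prime_and_dvd hd1
    have h12 : p ^ 12 ∣ 2 ^ 8 * (3 ^ 2 * n ^ 6) := (pow_dvd_pow_of_dvd hpd 12).trans hd
    have hpow : (p ^ 12).factorization p ≤ (2 ^ 8 * (3 ^ 2 * n ^ 6)).factorization p :=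
      (Nat.factorization_le_iff_dvd (pow_ne_zero _ hp.ne_zero) (by positivity)).2 h12 p
    rw [hp.factorization_pow, Finsupp.single_eq_same,
      Nat.factorization_mul (by norm_num) (by positivity),
      Nat.factorization_mul (by norm_num) (by positivity), Nat.prime_two.factorization_pow,
      Nat.prime_three.factorization_pow, Nat.factorization_pow] at hpow
    simp only [Finsupp.add_apply, Finsupp.smul_apply, smul_eq_mul, Finsupp.single_apply] at hpow
    have h1 : n.factorization p ≤ 1 := h.sq.natFactorization_le_one p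
    have h2 : n.factorization 2 = 0 := Nat.factorization_eq_zero_of_not_dvd h.n2
    have h3 : n.factorization 3 = 0 := Nat.factorization_eq_zero_of_not_dvd h.n3
    by_cases e2 : 2 = p
    · subst e2
      rw [h2] at hpow
      simp at hpow
    · by_cases e3 : 3 = p
      · subst e3
        rw [h3] at hpow
        simp at hpow
      · rw [if_neg e2, if_neg e3] at hpow
        omega

/-- `E(ℚ)` is finite and the `2`-primary part of `Ш(E/ℚ)` is zero -/
def FinSha (W : WeierstrassCurve ℚ) : Prop :=
  Finite W.toAffine.Point ∧ ∀ (n : ℕ) (x : Sha W), 2 ^ n • x = 0 → x = 0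

theorem finSha_iff {n : ℕ} (h : Twn n) :
    FinSha (EQ n) ↔ Pool.Agent.NH4.XG.nx n.primeFactors = 2 := by
  rw [EQ_eq]
  have hc := h.cl
  have hne : (n : ℤ) ≠ 0 := by have := h.ne; omega
  have key := sel_four (md_EW hne) (sel_finite hc)
  have e0 := sel_iff hc
  rw [Int.natAbs_natCast] at e0
  rw [← e0, key]
  constructor
  · rintro ⟨h1, h2⟩
    exact ⟨h1, fun x hx => h2 1 x (by rw [pow_one]; exact hx)⟩
  · rintro ⟨h1, h2⟩
    refine ⟨h1, fun m => ?_⟩
    induction m with
    | zero =>
      intro x hx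
      rwa [pow_zero, one_nsmul] at hx
    | succ m ih =>
      intro x hx
      apply h2
      apply ih
      rw [← mul_nsmul', ← pow_succ]
      exact hx

end Pool.Agent.H345.X24
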