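import Mathlib

/-!
# The curves `y² = x³ + a x² + b x`: coordinates, addition, points of order two
-/

set_option autoImplicit false
set_option linter.all false

open WeierstrassCurve

namespace Pool.Agent.H345.X24

variable {K : Type} [Field K] [DecidableEq K]

/-- `W` is the equation `y² = x³ + a x² + b x` -/
structure IsE (W : WeierstrassCurve.Affine K) (a b : K) : Prop where
  a1 : W.a₁ = 0
  a3 : W.a₃ = 0
  a2 : W.a₂ = a
  a4 : W.a₄ = b
  a6 : W.a₆ = 0

variable {W : WeierstrassCurve.Affine K} {a b : K}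

theorem IsE.iff (h : IsE W a b) {x y : K} : W.Equation x y ↔ y ^ 2 = x ^ 3 + a * x ^ 2 + b * x := by
  rw [Affine.equation_iff, h.a1, h.a3, h.a2, h.a4, h.a6]
  constructor
  · intro e
    linear_combination e
  · intro e
    linear_combination e

/-- the point `P` has the coordinates `x`, `y` -/
def At (P : W.Point) (x y : K) : Prop := ∃ h : W.Nonsingular x y, P = Affine.Point.some x y h

theorem At.eqn (hW : IsE W a b) {P : W.Point} {x y : K} (h : At P x y) :
    y ^ 2 = x ^ 3 + a * x ^ 2 + b * x := by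
  obtain ⟨hn, rfl⟩ := h
  exact hW.iff.1 hn.1

theorem At.ne_zero {P : W.Point} {x y : K} (h : At P x y) : P ≠ 0 := by
  obtain ⟨hn, rfl⟩ := h
  exact Affine.Point.some_ne_zero _

theorem exists_at {P : W.Point} (h : P ≠ 0) : ∃ x y, At P x y := by
  rcases P with _ | ⟨x, y, hn⟩
  · exact absurd rfl h
  · exact ⟨x, y, hn, rfl⟩

theorem At.unique {P : W.Point} {x y x' y' : K} (h : At P x y) (h' : At P x' y') :
    x = x' ∧ y = y' := by
  obtain ⟨hn, rfl⟩ := h
  obtain ⟨hn', e⟩ := h'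
  injection e with e1 e2
  exact ⟨e1, e2⟩

theorem At.ext {P P' : W.Point} {x y : K} (h : At P x y) (h' : At P' x y) : P = P' := by
  obtain ⟨hn, rfl⟩ := h
  obtain ⟨hn', rfl⟩ := h'
  rfl

theorem At.neg (hW : IsE W a b) {P : W.Point} {x y : K} (h : At P x y) : At (-P) x (-y) := by
  obtain ⟨hn, rfl⟩ := h
  rw [Affine.Point.neg_some]
  have e : W.negY x y = -y := by
    rw [WeierstrassCurve.Affine.negY, hW.a1, hW.a3]
    ring
  have hn' : W.Nonsingular x (-y) := by
    rw [← e]
    exact (W.nonsingular_neg x y).2 hn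
  refine ⟨hn', ?_⟩
  congr 1

/-- the points with given coordinates -/
theorem exists_pt (hW : IsE W a b) (h2 : (2 : K) ≠ 0) (hb : b ≠ 0) (hd : a ^ 2 - 4 * b ≠ 0) {x y : K}
    (hE : y ^ 2 = x ^ 3 + a * x ^ 2 + b * x) : ∃ P : W.Point, At P x y := by
  have hn : W.Nonsingular x y := by
    rw [Affine.nonsingular_iff]
    refine ⟨hW.iff.2 hE, ?_⟩
    by_contra hcon
    rw [not_or, not_ne_iff, not_ne_iff, hW.a1, hW.a3, hW.a2, hW.a4] at hcon
    obtain ⟨hc1, hc2⟩ := hcon
    have hy0 : y = 0 := by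
      have : 2 * y = 0 := by linear_combination hc2
      exact (mul_eq_zero.1 this).resolve_left h2
    rw [hy0] at hE hc1
    have hE' : x * (x ^ 2 + a * x + b) = 0 := by linear_combination -hE
    have hc1' : 3 * x ^ 2 + 2 * a * x + b = 0 := by linear_combination -hc1
    rcases mul_eq_zero.1 hE' with h | h
    · rw [h] at hc1'
      apply hb
      linear_combination hc1'
    · have h3 : x * (2 * x + a) = 0 := by linear_combination hc1' - h
      rcases mul_eq_zero.1 h3 with h4 | h4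
      · rw [h4] at hc1'
        apply hb
        linear_combination hc1'
      · apply hd
        linear_combination (2 * x + a) * h4 - 4 * h
  exact ⟨Affine.Point.some x y hn, hn, rfl⟩

theorem At.add (hW : IsE W a b) {P P' : W.Point} {x y x' y' : K}
    (h : At P x y) (h' : At P' x' y') (hne : x ≠ x') :
    ∃ y3, At (P + P') (((y - y') / (x - x')) ^ 2 - a - x - x') y3 := by
  obtain ⟨hn, rfl⟩ := h
  obtain ⟨hn', rfl⟩ := h'
  rw [Affine.Point.add_of_X_ne hne]
  have e : W.addX x x' (W.slope x x' y y') = ((y - y') / (x - x')) ^ 2 - a - x - x' := by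
    rw [WeierstrassCurve.Affine.addX, WeierstrassCurve.Affine.slope_of_X_ne hne, hW.a1, hW.a2]
    ring
  rw [← e]
  exact ⟨_, _, rfl⟩

theorem At.dbl (hW : IsE W a b) (h2 : (2 : K) ≠ 0) {P : W.Point} {x y : K} (h : At P x y)
    (hY : y ≠ 0) : ∃ y3, At (P + P) ((x ^ 2 - b) ^ 2 / (4 * y ^ 2)) y3 := by
  have e := h.eqn hW
  obtain ⟨hn, rfl⟩ := h
  have hy : y ≠ W.negY x y := by
    rw [WeierstrassCurve.Affine.negY, hW.a1, hW.a3]
    intro h
    apply hY
    have : 2 * y = 0 := by linear_combination h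
    exact (mul_eq_zero.1 this).resolve_left h2
  rw [Affine.Point.add_self_of_Y_ne hy]
  have h2y : 2 * y ≠ 0 := mul_ne_zero h2 hY
  have h4 : (4 : K) ≠ 0 := by
    have : (4 : K) = 2 ^ 2 := by norm_num
    rw [this]
    exact pow_ne_zero _ h2
  have e2 : W.addX x x (W.slope x x y y) = (x ^ 2 - b) ^ 2 / (4 * y ^ 2) := by
    rw [WeierstrassCurve.Affine.addX, WeierstrassCurve.Affine.slope_of_Y_ne rfl hy,
      WeierstrassCurve.Affine.negY, hW.a1, hW.a3, hW.a2, hW.a4]
    have h3 : y - (-y - 0 * x - 0) = 2 * y := by ring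
    rw [h3, eq_div_iff (mul_ne_zero h4 (pow_ne_zero _ hY))]
    obtain ⟨l, hl⟩ : ∃ l : K, l = (3 * x ^ 2 + 2 * a * x + b - 0 * y) / (2 * y) := ⟨_, rfl⟩
    rw [← hl]
    have hl1 : l * (2 * y) = 3 * x ^ 2 + 2 * a * x + b := by
      rw [hl, div_mul_cancel₀ _ h2y]
      ring
    have e8 : (l ^ 2 + 0 * l - a - x - x) * (4 * y ^ 2) = (l * (2 * y)) ^ 2 -
        (a + 2 * x) * (4 * y ^ 2) := by ring
    rw [e8, hl1, e]
    ring
  rw [← e2]
  exact ⟨_, _, rfl⟩

/-- translation by a point of order two with the coordinates `(e, 0)` -/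
theorem At.addT (hW : IsE W a b) {P T : W.Point} {x y e : K} (h : At P x y)
    (hT : At T e 0) (hX : x ≠ e) : ∃ x3 y3, At (P + T) x3 y3 ∧
      (x3 - e) * (x - e) = 3 * e ^ 2 + 2 * a * e + b := by
  obtain ⟨y3, h3⟩ := h.add hW hT hX
  refine ⟨_, y3, h3, ?_⟩
  have e0 := h.eqn hW
  have eT := hT.eqn hW
  have hXe : x - e ≠ 0 := sub_ne_zero.2 hX
  rw [sub_zero]
  obtain ⟨L, hL⟩ : ∃ L : K, L = y / (x - e) := ⟨_, rfl⟩
  have hL1 : L * (x - e) = y := by rw [hL, div_mul_cancel₀ _ hXe]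
  rw [← hL]
  have e3 : L ^ 2 * (x - e) = x ^ 2 + (a + e) * x + (e ^ 2 + a * e + b) := by
    apply mul_right_cancel₀ hXe
    rw [← hL1] at e0
    linear_combination e0 - eT
  linear_combination e3

theorem two_tors (hW : IsE W a b) {T : W.Point} {e : K} (hT : At T e 0) : T + T = 0 := by
  have h1 : At (-T) e 0 := by simpa using hT.neg hW
  have h3 : T = -T := hT.ext h1
  calc T + T = T + -T := by rw [← h3]
    _ = 0 := add_neg_cancel T

/-- the points of order two -/
theorem ord_two (hW : IsE W a b) (h2 : (2 : K) ≠ 0) {T : W.Point} (h0 : T ≠ 0) (hT : T + T = 0) :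
    ∃ e, At T e 0 ∧ e ^ 3 + a * e ^ 2 + b * e = 0 := by
  obtain ⟨x, y, h⟩ := exists_at h0
  have h1 : T = -T := eq_neg_of_add_eq_zero_left hT
  have h3 := h.neg hW
  rw [← h1] at h3
  have h4 : y = 0 := by
    have h5 := (h.unique h3).2
    have h6 : 2 * y = 0 := by linear_combination h5
    exact (mul_eq_zero.1 h6).resolve_left h2
  rw [h4] at h
  refine ⟨x, h, ?_⟩
  have h5 := h.eqn hW
  linear_combination -h5

end Pool.Agent.H345.X24
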