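import Pool.Agent.H464.XB.LG
import Pool.Graph.R_pool_sql_team_seeded_3dad9d7b.NH3.XT.LA

/-!
# Twists of `X_0(24)`: the local images at the odd primes and at infinity

`E : y² = x (x + n) (x - 3 n)`, `n = 11 mod 24` squarefree.
-/

set_option autoImplicit false
set_option linter.all false

open scoped Classical

namespace Pool.Agent.H345.X24

open Pool.Agent.NH3.XT (Loc Sel)
open Pool.Agent.NH3.XT.LA (sq1 mulsq norm_unit ne_of_unit)
open Pool.Agent.NH57.SQ.XL

section odd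

variable {p : ℕ} [hp : Fact p.Prime]

/-- a prime dividing `n` -/
theorem core_p (hp2 : p ≠ 2) (hp3 : p ≠ 3) {n : ℤ} (hn : (p : ℤ) ∣ n) (hn2 : ¬ (p : ℤ) ^ 2 ∣ n)
    {x y : ℚ_[p]} (hy : y ≠ 0) (hxy : y ^ 2 = x * (x + n) * (x - 3 * n)) :
    (IsSquare x ∧ IsSquare (x + n)) ∨ (IsSquare (x * (-3)) ∧ IsSquare ((x + n) * n)) ∨
    (IsSquare (x * (-n)) ∧ IsSquare (x + n)) ∨ (IsSquare (x * (3 * n)) ∧ IsSquare ((x + n) * n)) := by
  have hpp := hp.out
  have n3 : ‖((3 : ℤ) : ℚ_[p])‖ = 1 := norm_unit fun h => by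
    have h1 : p ∣ 3 := by exact_mod_cast h
    exact hp3 ((Nat.prime_dvd_prime_iff_eq hpp Nat.prime_three).1 h1)
  have n4 : ‖((4 : ℤ) : ℚ_[p])‖ = 1 := norm_unit fun h => by
    have h1 : p ∣ 2 ^ 2 := by exact_mod_cast h
    exact hp2 ((Nat.prime_dvd_prime_iff_eq hpp Nat.prime_two).1 (hpp.dvd_of_dvd_pow h1))
  push_cast at n3 n4
  have hy2 : y ^ 2 ≠ 0 := pow_ne_zero 2 hy
  rw [hxy] at hy2
  have hx : x ≠ 0 := left_ne_zero_of_mul (left_ne_zero_of_mul hy2)
  have hz : x + n ≠ 0 := right_ne_zero_of_mul (left_ne_zero_of_mul hy2)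
  have hw : x - 3 * n ≠ 0 := right_ne_zero_of_mul hy2
  have nn : ‖(n : ℚ_[p])‖ = (p : ℝ)⁻¹ := by
    obtain ⟨D', rfl⟩ := hn
    have h1 : ¬ (p : ℤ) ∣ D' := fun h1 => hn2 (by rw [pow_two]; exact mul_dvd_mul_left _ h1)
    push_cast
    rw [norm_mul, norm_unit h1, mul_one]
    exact Padic.norm_p
  have p1 : (1 : ℝ) < p := by exact_mod_cast hp.out.one_lt
  have n0 : (n : ℚ_[p]) ≠ 0 := by
    rw [← norm_pos_iff, nn]
    positivity
  have three0 : (3 : ℚ_[p]) ≠ 0 := by rw [← norm_pos_iff, n3]; exact one_pos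
  rcases lt_or_ge ‖(n : ℚ_[p])‖ ‖x‖ with hlt | hge
  · left
    have hr : ‖(n : ℚ_[p]) / x‖ < 1 := by
      rw [norm_div, div_lt_one (norm_pos_iff.2 hx)]
      exact hlt
    have hr' : ‖-(3 * (n : ℚ_[p]) / x)‖ < 1 := by
      rw [norm_neg, mul_div_assoc, norm_mul, n3, one_mul]
      exact hr
    obtain ⟨s, hs0, hs⟩ := sq1 hp2 hr
    obtain ⟨t, ht0, ht⟩ := sq1 hp2 hr'
    have e1 : x + n = x * s ^ 2 := by rw [← hs]; field_simp
    have e2 : x - 3 * n = x * t ^ 2 := by rw [← ht]; field_simp; ring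
    have hsx : IsSquare x := by
      refine ⟨y / (x * s * t), ?_⟩
      rw [e1, e2] at hxy
      field_simp
      linear_combination -hxy
    refine ⟨hsx, ?_⟩
    obtain ⟨u, hu⟩ := hsx
    exact ⟨u * s, by rw [e1, hu]; ring⟩
  · obtain ⟨X, hX⟩ : ∃ X, x = n * X := ⟨x / n, by field_simp⟩
    have nX : ‖X‖ ≤ 1 := by
      rw [hX, norm_mul] at hge
      have : 0 < ‖(n : ℚ_[p])‖ := norm_pos_iff.2 n0
      by_contra hcon
      push Not at hcon
      nlinarith
    rcases lt_or_eq_of_le nX with h1 | h1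
    · right; left
      obtain ⟨s, hs0, hs⟩ := sq1 hp2 h1
      obtain ⟨t, ht0, ht⟩ := sq1 hp2 (r := -(X / 3)) (by rw [norm_neg, norm_div, n3, div_one]; exact h1)
      have e1 : x + n = n * s ^ 2 := by rw [← hs, hX]; ring
      have e2 : x - 3 * n = -3 * n * t ^ 2 := by rw [← ht, hX]; field_simp; ring
      refine ⟨⟨y / (n * s * t), ?_⟩, ⟨n * s, by rw [e1]; ring⟩⟩
      have e3 : y ^ 2 = x * (n * s ^ 2) * (-3 * n * t ^ 2) := by rw [hxy, e1, e2]
      field_simp
      linear_combination -e3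
    · have nE : ‖X + 1‖ ≤ 1 := by
        have := Padic.nonarchimedean X 1
        rw [h1, norm_one, max_self] at this
        exact this
      have nF : ‖X - 3‖ ≤ 1 := by
        have := Padic.nonarchimedean X (-3)
        rw [← sub_eq_add_neg, norm_neg, n3, h1, max_self] at this
        exact this
      rcases lt_or_eq_of_le nE with h2 | h2
      · right; right; left
        obtain ⟨s, hs0, hs⟩ := sq1 hp2 (r := -(X + 1)) (by rw [norm_neg]; exact h2)
        obtain ⟨t, ht0, ht⟩ := sq1 hp2 (r := -((X + 1) / 4)) (by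
          rw [norm_neg, norm_div, n4, div_one]; exact h2)
        have four0 : (4 : ℚ_[p]) ≠ 0 := by norm_num
        have e1 : x = -n * s ^ 2 := by rw [← hs, hX]; ring
        have e2 : x - 3 * n = -4 * n * t ^ 2 := by rw [← ht, hX]; field_simp; ring
        refine ⟨⟨n * s, by rw [e1]; ring⟩, ⟨y / (2 * n * s * t), ?_⟩⟩
        have e3 : y ^ 2 = (-n * s ^ 2) * (x + n) * (-4 * n * t ^ 2) := by
          rw [hxy, e2, ← e1]
        field_simp
        linear_combination -e3
      · rcases lt_or_eq_of_le nF with h3 | h3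
        · right; right; right
          obtain ⟨s, hs0, hs⟩ := sq1 hp2 (r := (X - 3) / 3) (by rw [norm_div, n3, div_one]; exact h3)
          obtain ⟨t, ht0, ht⟩ := sq1 hp2 (r := (X - 3) / 4) (by rw [norm_div, n4, div_one]; exact h3)
          have e1 : x = 3 * n * s ^ 2 := by rw [← hs, hX]; field_simp; ring
          have e2 : x + n = 4 * n * t ^ 2 := by rw [← ht, hX]; field_simp; ring
          exact ⟨⟨3 * n * s, by rw [e1]; ring⟩, ⟨2 * n * t, by rw [e2]; ring⟩⟩
        · exfalso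
          have e1 : y ^ 2 = (n : ℚ_[p]) ^ 3 * (X * (X + 1) * (X - 3)) := by
            rw [hxy, hX]
            ring
          have e2 := congrArg norm e1
          rw [norm_mul, norm_mul, norm_mul, h1, h2, h3, norm_pow, norm_pow, nn,
            Padic.norm_eq_zpow_neg_valuation hy] at e2
          have e3 : ((p : ℝ) ^ (-y.valuation)) ^ 2 = (p : ℝ) ^ (-y.valuation * 2) := by
            rw [zpow_mul]
            norm_cast
          have e4 : ((p : ℝ)⁻¹) ^ 3 * (1 * 1 * 1) = (p : ℝ) ^ (-3 : ℤ) := by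
            rw [zpow_neg, inv_pow]
            norm_num
          rw [e3, e4] at e2
          have := zpow_right_injective₀ (by positivity) (by exact_mod_cast hp.out.one_lt.ne') e2
          omega

end odd

/-! ### the prime three -/

theorem unit3 {X : ℚ_[3]} (hX : ‖X‖ = 1) : ∃ v : ℚ_[3], v ≠ 0 ∧ (X = v ^ 2 ∨ X = -v ^ 2) := by
  obtain ⟨a, ha⟩ : ∃ a : ℤ_[3], (a : ℚ_[3]) = X := ⟨⟨X, hX.le⟩, rfl⟩
  have hz : ∀ b : ℤ_[3], PadicInt.toZMod b = 0 → ‖(b : ℚ_[3])‖ < 1 := by
    intro b hb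
    have h1 : b ∈ RingHom.ker (PadicInt.toZMod (p := 3)) := hb
    rw [PadicInt.ker_toZMod, IsLocalRing.mem_maximalIdeal, PadicInt.mem_nonunits] at h1
    rwa [PadicInt.norm_def] at h1
  have hne : PadicInt.toZMod a ≠ 0 := by
    intro h
    have := hz a h
    rw [ha, hX] at this
    exact lt_irrefl _ this
  have h3 : ∀ t : ZMod 3, t ≠ 0 → t - 1 = 0 ∨ t + 1 = 0 := by decide
  rcases h3 _ hne with h | h
  · have h4 : ‖X - 1‖ < 1 := by
      have := hz (a - 1) (by rw [map_sub, map_one]; exact h)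
      push_cast at this
      rwa [ha] at this
    obtain ⟨v, hv, e⟩ := sq1 (p := 3) (by norm_num) h4
    exact ⟨v, hv, Or.inl (by rw [← e]; ring)⟩
  · have h4 : ‖-(X + 1)‖ < 1 := by
      rw [norm_neg]
      have := hz (a + 1) (by rw [map_add, map_one]; exact h)
      push_cast at this
      rwa [ha] at this
    obtain ⟨v, hv, e⟩ := sq1 (p := 3) (by norm_num) h4
    exact ⟨v, hv, Or.inr (by rw [← e]; ring)⟩

theorem core_3 {n : ℤ} (hn : n % 3 = 2) {x y : ℚ_[3]} (hy : y ≠ 0)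
    (hxy : y ^ 2 = x * (x + n) * (x - 3 * n)) :
    (IsSquare (x + n) ∧ (IsSquare x ∨ IsSquare (x * (-1)))) ∨
    (IsSquare ((x + n) * (-1)) ∧ (IsSquare (x * 3) ∨ IsSquare (x * (-3)))) := by
  have nn : ‖(n : ℚ_[3])‖ = 1 := norm_unit (p := 3) (by push_cast; omega)
  have n3 : ‖(3 : ℚ_[3])‖ = 1 / 3 := by
    have := Padic.norm_p (p := 3)
    simpa using this
  have n0 : (n : ℚ_[3]) ≠ 0 := ne_of_unit (p := 3) (by push_cast; omega)
  have hy2 : y ^ 2 ≠ 0 := pow_ne_zero 2 hy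
  rw [hxy] at hy2
  have hx : x ≠ 0 := left_ne_zero_of_mul (left_ne_zero_of_mul hy2)
  have hxp : 0 < ‖x‖ := norm_pos_iff.2 hx
  rcases lt_trichotomy ‖x‖ 1 with h1 | h1 | h1
  · right
    obtain ⟨w, hw0, hw⟩ := sq1 (p := 3) (by norm_num) (r := ((-n - 1 : ℤ) : ℚ_[3])) (by
      rw [Padic.norm_intCast_lt_one_iff]
      push_cast
      omega)
    have hw' : (n : ℚ_[3]) = -w ^ 2 := by
      rw [← hw]; push_cast; ring
    obtain ⟨s, hs0, hs⟩ := sq1 (p := 3) (by norm_num) (r := x / n) (by rw [norm_div, nn, div_one]; exact h1)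
    have e1 : x + n = -(w * s) ^ 2 := by
      rw [mul_pow, ← hs, neg_mul_eq_neg_mul, ← hw']
      field_simp
      ring
    refine ⟨⟨w * s, by rw [e1]; ring⟩, ?_⟩
    have h2 : ‖x‖ ≤ 1 / 3 := by
      have := Padic.norm_le_pow_iff_norm_lt_pow_add_one x (-1)
      norm_num at this
      have h3 := this.2 h1
      norm_num at h3
      linarith
    rcases lt_or_eq_of_le h2 with h3 | h3
    · right
      obtain ⟨t, ht0, ht⟩ := sq1 (p := 3) (by norm_num) (r := -(x / (3 * n))) (by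
        rw [norm_neg, norm_div, norm_mul, nn, n3, mul_one, div_lt_one (by norm_num)]
        exact h3)
      have three0 : (3 : ℚ_[3]) ≠ 0 := by norm_num
      have e2 : x - 3 * n = 3 * (w * t) ^ 2 := by
        have : x - 3 * n = -3 * n * t ^ 2 := by rw [← ht]; field_simp; ring
        rw [this, hw']
        ring
      refine ⟨y / (w * s * w * t), ?_⟩
      have e3 : y ^ 2 = x * (-(w * s) ^ 2) * (3 * (w * t) ^ 2) := by rw [hxy, e1, e2]
      field_simp
      linear_combination -e3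
    · obtain ⟨v, hv, h4⟩ := unit3 (X := x / 3) (by rw [norm_div, h3, n3]; norm_num)
      rcases h4 with h4 | h4
      · left
        refine ⟨3 * v, ?_⟩
        have : x = 3 * v ^ 2 := by rw [← h4]; field_simp
        rw [this]; ring
      · right
        refine ⟨3 * v, ?_⟩
        have : x = 3 * -v ^ 2 := by rw [← h4]; field_simp
        rw [this]; ring
  · left
    obtain ⟨t, ht0, ht⟩ := sq1 (p := 3) (by norm_num) (r := -(3 * n / x)) (by
      rw [norm_neg, norm_div, norm_mul, nn, n3, h1]; norm_num)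
    have e2 : x - 3 * n = x * t ^ 2 := by rw [← ht]; field_simp; ring
    refine ⟨⟨y / (x * t), ?_⟩, ?_⟩
    · rw [e2] at hxy
      field_simp
      linear_combination -hxy
    · obtain ⟨v, hv, h4⟩ := unit3 h1
      rcases h4 with h4 | h4
      · exact Or.inl ⟨v, by rw [h4]; ring⟩
      · exact Or.inr ⟨v, by rw [h4]; ring⟩
  · left
    have hr : ‖(n : ℚ_[3]) / x‖ < 1 := by
      rw [norm_div, nn, div_lt_one hxp]
      exact h1
    have hr' : ‖-(3 * (n : ℚ_[3]) / x)‖ < 1 := by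
      rw [norm_neg, mul_div_assoc, norm_mul, n3]
      linarith [norm_nonneg ((n : ℚ_[3]) / x)]
    obtain ⟨s, hs0, hs⟩ := sq1 (p := 3) (by norm_num) hr
    obtain ⟨t, ht0, ht⟩ := sq1 (p := 3) (by norm_num) hr'
    have e1 : x + n = x * s ^ 2 := by rw [← hs]; field_simp
    have e2 : x - 3 * n = x * t ^ 2 := by rw [← ht]; field_simp; ring
    have hsx : IsSquare x := by
      refine ⟨y / (x * s * t), ?_⟩
      rw [e1, e2] at hxy
      field_simp
      linear_combination -hxy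
    obtain ⟨u, hu⟩ := id hsx
    exact ⟨⟨u * s, by rw [e1, hu]; ring⟩, Or.inl hsx⟩

end Pool.Agent.H345.X24
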