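import Pool.Agent.H464.XB.LG
import Pool.Graph.R_pool_sql_team_seeded_3dad9d7b.NH3.XT.LA

/-!
# Twists of `X_0(24)`: the local image at the prime two
-/

set_option autoImplicit false
set_option linter.all false

open scoped Classical

namespace Pool.Agent.H345.X24

open Pool.Agent.NH3.XT (Loc Sel)
open Pool.Agent.H464.XB (hens)

theorem norm_two : ‖(2 : ℚ_[2])‖ = 1 / 2 := by
  have := Padic.norm_p (p := 2)
  simpa using this

theorem norm_four : ‖(4 : ℚ_[2])‖ = 1 / 4 := by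
  have : (4 : ℚ_[2]) = 2 ^ 2 := by norm_num
  rw [this, norm_pow, norm_two]
  norm_num

theorem norm_eight : ‖(8 : ℚ_[2])‖ = 1 / 8 := by
  have : (8 : ℚ_[2]) = 2 ^ 3 := by norm_num
  rw [this, norm_pow, norm_two]
  norm_num

theorem norm_odd {n : ℤ} (h : n % 2 = 1) : ‖(n : ℚ_[2])‖ = 1 := by
  refine le_antisymm (Padic.norm_int_le_one _) (not_lt.1 fun h1 => ?_)
  have := Padic.norm_intCast_lt_one_iff.1 h1
  push_cast at this
  omega

/-- a norm which is smaller than one is at most one half -/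
theorem le_half {x : ℚ_[2]} (h : ‖x‖ < 1) : ‖x‖ ≤ 1 / 2 := by
  have := Padic.norm_le_pow_iff_norm_lt_pow_add_one x (-1)
  norm_num at this
  have h3 := this.2 h
  norm_num at h3
  linarith

theorem le_quarter {x : ℚ_[2]} (h : ‖x‖ < 1 / 2) : ‖x‖ ≤ 1 / 4 := by
  have h1 : ‖x / 2‖ < 1 := by
    rw [norm_div, norm_two]
    linarith
  have h2 := le_half h1
  rw [norm_div, norm_two] at h2
  linarith

/-- norms are not strictly between powers of two -/
theorem ge_two {x : ℚ_[2]} (h : 1 < ‖x‖) : 2 ≤ ‖x‖ := by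
  have h0 : x ≠ 0 := by
    rintro rfl
    rw [norm_zero] at h
    linarith
  have h1 : ‖x⁻¹‖ < 1 := by
    rw [norm_inv]
    exact inv_lt_one_of_one_lt₀ h
  have h2 := le_half h1
  rw [norm_inv, inv_le_comm₀ (by linarith) (by norm_num)] at h2
  norm_num at h2
  exact h2

/-- the square of the norm is not two or one half -/
theorem sq_ne {x z : ℚ_[2]} (hz : z ≠ 0) (h : ‖z‖ ^ 2 = ‖x‖) : ‖x‖ ≠ 2 ∧ ‖x‖ ≠ 1 / 2 := by
  rw [Padic.norm_eq_zpow_neg_valuation hz] at h
  constructor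
  · intro h1
    rw [h1] at h
    have e3 : ((2 : ℕ) : ℝ) ^ (-z.valuation * 2) = ((2 : ℕ) : ℝ) ^ (1 : ℤ) := by
      rw [zpow_mul, zpow_one]
      push_cast at h ⊢
      exact_mod_cast h
    have := zpow_right_injective₀ (by norm_num) (by norm_num) e3
    omega
  · intro h1
    rw [h1] at h
    have e3 : ((2 : ℕ) : ℝ) ^ (-z.valuation * 2) = ((2 : ℕ) : ℝ) ^ (-1 : ℤ) := by
      rw [zpow_mul, zpow_neg_one]
      push_cast at h ⊢
      rw [show ((2 : ℝ))⁻¹ = 1 / 2 by norm_num]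
      exact_mod_cast h
    have := zpow_right_injective₀ (by norm_num) (by norm_num) e3
    omega

/-- squares of units are `1` modulo `8`: the excluded case -/
theorem excl {n : ℤ} (hn : n % 8 = 3) {u s : ℚ_[2]} (hu : ‖u‖ = 1)
    (h : s ^ 2 = (2 * u - n) * u * (u - 2 * n)) : False := by
  have hn2 : ‖(n : ℚ_[2])‖ = 1 := norm_odd (by omega)
  have hs : ‖s‖ ≤ 1 := by
    have h1 : ‖s ^ 2‖ ≤ 1 := by
      rw [h]
      have a1 : ‖2 * u - (n : ℚ_[2])‖ ≤ 1 := by
        refine (Padic.nonarchimedean (2 * u) (-(n : ℚ_[2]))).trans (max_le ?_ ?_) |>.trans_eq' ?_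
        · rw [norm_mul, norm_two, hu]; norm_num
        · rw [norm_neg, hn2]
        · rw [sub_eq_add_neg]
      have a2 : ‖u - 2 * (n : ℚ_[2])‖ ≤ 1 := by
        refine (Padic.nonarchimedean u (-(2 * (n : ℚ_[2])))).trans (max_le ?_ ?_) |>.trans_eq' ?_
        · rw [hu]
        · rw [norm_neg, norm_mul, norm_two, hn2]; norm_num
        · rw [sub_eq_add_neg]
      rw [norm_mul, norm_mul, hu, mul_one]
      exact mul_le_one₀ a1 (norm_nonneg _) a2
    rw [norm_pow] at h1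
    by_contra hc
    rw [not_le] at hc
    have := one_lt_pow₀ hc two_ne_zero
    linarith
  obtain ⟨a, ha⟩ : ∃ a : ℤ_[2], (a : ℚ_[2]) = u := ⟨⟨u, hu.le⟩, rfl⟩
  obtain ⟨b, hb⟩ : ∃ b : ℤ_[2], (b : ℚ_[2]) = s := ⟨⟨s, hs⟩, rfl⟩
  have h2 : b ^ 2 = (2 * a - n) * a * (a - 2 * n) := by
    have : ((b ^ 2 : ℤ_[2]) : ℚ_[2]) = (((2 * a - n) * a * (a - 2 * n) : ℤ_[2]) : ℚ_[2]) := by
      push_cast
      rw [ha, hb]
      exact h
    exact Subtype.ext this
  have h3 := congrArg (PadicInt.toZModPow (p := 2) 3) h2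
  simp only [map_pow, map_mul, map_sub, map_ofNat, map_intCast] at h3
  have hnz : ((n : ℤ) : ZMod (2 ^ 3)) = 3 := by
    have : ((n : ℤ) : ZMod (2 ^ 3)) = ((3 : ℤ) : ZMod (2 ^ 3)) := by
      rw [ZMod.intCast_eq_intCast_iff]
      show n % _ = 3 % _
      push_cast
      omega
    rw [this]
    rfl
  rw [hnz] at h3
  have hau : IsUnit a := PadicInt.isUnit_iff.2 (by rw [PadicInt.norm_def, ha, hu])
  have hau2 : IsUnit (PadicInt.toZModPow (p := 2) 3 a) := hau.map _
  have key : ∀ t r : ZMod (2 ^ 3), (∃ t', t * t' = 1) → r ^ 2 ≠ (2 * t - 3) * t * (t - 2 * 3) := by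
    decide
  obtain ⟨t', ht'⟩ := hau2.exists_right_inv
  exact key _ _ ⟨t', ht'⟩ h3

theorem core_2 {n : ℤ} (hn : n % 8 = 3) {x y : ℚ_[2]} (hy : y ≠ 0)
    (hxy : y ^ 2 = x * (x + n) * (x - 3 * n)) :
    (∃ r w : ℚ_[2], r ≠ 0 ∧ x = r ^ 2 * w ∧ ‖w - 1‖ ≤ 1 / 4) ∧
      ∃ z : ℚ_[2], z ≠ 0 ∧ ‖x + n‖ = ‖z‖ ^ 2 := by
  have nn : ‖(n : ℚ_[2])‖ = 1 := norm_odd (by omega)
  have n3 : ‖(3 : ℚ_[2])‖ = 1 := by
    have := norm_odd (n := 3) (by norm_num)
    exact_mod_cast this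
  have n3n : ‖(3 * n : ℚ_[2])‖ = 1 := by rw [norm_mul, n3, nn, one_mul]
  have n0 : (n : ℚ_[2]) ≠ 0 := by
    rw [← norm_pos_iff, nn]; exact one_pos
  have hy2 : y ^ 2 ≠ 0 := pow_ne_zero 2 hy
  rw [hxy] at hy2
  have hx : x ≠ 0 := left_ne_zero_of_mul (left_ne_zero_of_mul hy2)
  have hz : x + n ≠ 0 := right_ne_zero_of_mul (left_ne_zero_of_mul hy2)
  have hw : x - 3 * n ≠ 0 := right_ne_zero_of_mul hy2
  have hxp : 0 < ‖x‖ := norm_pos_iff.2 hx
  have hN : ‖y‖ ^ 2 = ‖x‖ * ‖x + n‖ * ‖x - 3 * n‖ := by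
    rw [← norm_pow, hxy, norm_mul, norm_mul]
  rcases lt_trichotomy ‖x‖ 1 with h1 | h1 | h1
  · -- `x` even
    have e1 : ‖x + n‖ = 1 := by
      rw [Padic.add_eq_max_of_ne (by rw [nn]; exact h1.ne), nn]
      exact max_eq_right h1.le
    have e2 : ‖x - 3 * n‖ = 1 := by
      rw [sub_eq_add_neg, Padic.add_eq_max_of_ne (by rw [norm_neg, n3n]; exact h1.ne), norm_neg, n3n]
      exact max_eq_right h1.le
    rw [e1, e2, mul_one, mul_one] at hN
    have h2 := (sq_ne hy hN).2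
    have h3 : ‖x‖ ≤ 1 / 4 := le_quarter (lt_of_le_of_ne (le_half h1) h2)
    refine ⟨?_, 1, one_ne_zero, by rw [e1, norm_one, one_pow]⟩
    -- the product of the other two factors
    obtain ⟨s, hs⟩ := hens (p := 2) (e := (2 * n * x - x ^ 2) / (3 * n ^ 2)) (by
      rw [norm_div, norm_mul, norm_pow, n3, nn, one_pow, one_mul, div_one, norm_four]
      have a1 : ‖2 * (n : ℚ_[2]) * x - x ^ 2‖ ≤ max ‖2 * (n : ℚ_[2]) * x‖ ‖x ^ 2‖ := by
        have := Padic.nonarchimedean (2 * (n : ℚ_[2]) * x) (-(x ^ 2))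
        rwa [← sub_eq_add_neg, norm_neg] at this
      refine lt_of_le_of_lt a1 (max_lt ?_ ?_)
      · rw [norm_mul, norm_mul, norm_two, nn]; linarith
      · rw [norm_pow]; nlinarith)
    have three0 : (3 : ℚ_[2]) ≠ 0 := by norm_num
    have e3 : (x + n) * (x - 3 * n) = -3 * (n * s) ^ 2 := by
      have : -3 * (n * s) ^ 2 = -3 * n ^ 2 * (s * s) := by ring
      rw [this, ← hs]
      field_simp
      ring
    have hs0 : s ≠ 0 := by
      rintro rfl
      rw [mul_zero, zero_pow two_ne_zero, mul_zero] at e3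
      exact (mul_ne_zero hz hw) e3
    refine ⟨y / (3 * n * s), -3, div_ne_zero hy (mul_ne_zero (mul_ne_zero three0 n0) hs0), ?_, ?_⟩
    · have e4 : y ^ 2 = x * (-3 * (n * s) ^ 2) := by rw [hxy, ← e3]; ring
      field_simp
      linear_combination e4
    · have : (-3 - 1 : ℚ_[2]) = -4 := by norm_num
      rw [this, norm_neg, norm_four]
  · -- `x` odd
    obtain ⟨u, hu⟩ : ∃ u, u = x + n := ⟨_, rfl⟩
    have hxu : x = u - n := by rw [hu]; ring
    have hu1 : ‖u‖ < 1 := by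
      obtain ⟨a, ha⟩ : ∃ a : ℤ_[2], (a : ℚ_[2]) = x := ⟨⟨x, h1.le⟩, rfl⟩
      have hz2 : ∀ b : ℤ_[2], PadicInt.toZMod b = 0 → ‖(b : ℚ_[2])‖ < 1 := by
        intro b hb
        have h1 : b ∈ RingHom.ker (PadicInt.toZMod (p := 2)) := hb
        rw [PadicInt.ker_toZMod, IsLocalRing.mem_maximalIdeal, PadicInt.mem_nonunits] at h1
        rwa [PadicInt.norm_def] at h1
      have hne : PadicInt.toZMod a ≠ 0 := by
        intro h
        have hau : IsUnit a := PadicInt.isUnit_iff.2 (by rw [PadicInt.norm_def, ha, h1])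
        have := hau.map (PadicInt.toZMod (p := 2))
        rw [h] at this
        exact not_isUnit_zero this
      have hnz : ((n : ℤ) : ZMod 2) = 1 := by
        have : ((n : ℤ) : ZMod 2) = ((1 : ℤ) : ZMod 2) := by
          rw [ZMod.intCast_eq_intCast_iff]
          show n % _ = 1 % _
          push_cast
          omega
        rw [this]
        rfl
      have h3 : ∀ t : ZMod 2, t ≠ 0 → t + 1 = 0 := by decide
      have := hz2 (a + n) (by rw [map_add, map_intCast, hnz]; exact h3 _ hne)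
      push_cast at this
      rwa [ha, ← hu] at this
    have hu0 : u ≠ 0 := by rw [hu]; exact hz
    have hne2 : ‖u‖ ≠ 1 / 2 := by
      intro h2
      have h3 : ‖u / 2‖ = 1 := by rw [norm_div, norm_two, h2]; norm_num
      refine excl hn (u := u / 2) (s := y / 2) h3 ?_
      rw [div_pow, hxy, hxu]
      ring
    have h3 : ‖u‖ ≤ 1 / 4 := le_quarter (lt_of_le_of_ne (le_half hu1) hne2)
    constructor
    · refine ⟨1, x, one_ne_zero, by ring, ?_⟩
      have e : x - 1 = u + ((-n - 1 : ℤ) : ℚ_[2]) := by rw [hxu]; push_cast; ring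
      rw [e]
      refine (Padic.nonarchimedean _ _).trans (max_le h3 ?_)
      have h5 : (2 ^ 2 : ℤ) ∣ (-n - 1) := by norm_num; omega
      have := (Padic.norm_int_le_pow_iff_dvd (p := 2) (-n - 1) 2).2 (by exact_mod_cast h5)
      refine this.trans ?_
      norm_num
    · rw [← hu]
      rcases lt_or_eq_of_le h3 with h4 | h4
      · have e1 : ‖x - 3 * n‖ = 1 / 4 := by
          have e : x - 3 * n = u + -(4 * n) := by rw [hxu]; ring
          have e4n : ‖-(4 * (n : ℚ_[2]))‖ = 1 / 4 := by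
            rw [norm_neg, norm_mul, nn, norm_four, mul_one]
          rw [e, Padic.add_eq_max_of_ne (by rw [e4n]; exact h4.ne), e4n]
          exact max_eq_right h4.le
        refine ⟨y / 2, div_ne_zero hy two_ne_zero, ?_⟩
        rw [norm_div, div_pow, hN, ← hu, h1, e1, norm_two]
        norm_num
      · exact ⟨2, two_ne_zero, by rw [h4, norm_two]; norm_num⟩
  · -- `x` not integral
    have e1 : ‖x + n‖ = ‖x‖ := by
      rw [Padic.add_eq_max_of_ne (by rw [nn]; exact h1.ne'), nn]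
      exact max_eq_left h1.le
    have e2 : ‖x - 3 * n‖ = ‖x‖ := by
      rw [sub_eq_add_neg, Padic.add_eq_max_of_ne (by rw [norm_neg, n3n]; exact h1.ne'), norm_neg, n3n]
      exact max_eq_left h1.le
    rw [e1, e2] at hN
    have hN2 : ‖y / x‖ ^ 2 = ‖x‖ := by
      rw [norm_div, div_pow, hN]
      field_simp
    have hyx : y / x ≠ 0 := div_ne_zero hy hx
    have h2 := (sq_ne hyx hN2).1
    have h3 : 4 ≤ ‖x‖ := by
      have h4 : 2 < ‖x‖ := lt_of_le_of_ne (ge_two h1) (Ne.symm h2)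
      have h5 : 1 < ‖2 * x‖ := by
        rw [norm_mul, norm_two]
        linarith
      have := ge_two h5
      rw [norm_mul, norm_two] at this
      linarith
    obtain ⟨s, hs⟩ := hens (p := 2) (e := -(2 * n / x) - 3 * n ^ 2 / x ^ 2) (by
      rw [norm_four]
      have a1 : ‖-(2 * (n : ℚ_[2]) / x) - 3 * (n : ℚ_[2]) ^ 2 / x ^ 2‖ ≤
          max ‖2 * (n : ℚ_[2]) / x‖ ‖3 * (n : ℚ_[2]) ^ 2 / x ^ 2‖ := by
        have := Padic.nonarchimedean (-(2 * (n : ℚ_[2]) / x)) (-(3 * (n : ℚ_[2]) ^ 2 / x ^ 2))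
        rwa [← sub_eq_add_neg, norm_neg, norm_neg] at this
      refine lt_of_le_of_lt a1 (max_lt ?_ ?_)
      · rw [norm_div, norm_mul, norm_two, nn, div_lt_iff₀ hxp]; linarith
      · rw [norm_div, norm_mul, norm_pow, norm_pow, n3, nn, div_lt_iff₀ (by positivity)]; nlinarith)
    have e3 : (x + n) * (x - 3 * n) = (x * s) ^ 2 := by
      have : (x * s) ^ 2 = x ^ 2 * (s * s) := by ring
      rw [this, ← hs]
      field_simp
      ring
    have hs0 : s ≠ 0 := by
      rintro rfl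
      rw [mul_zero, zero_pow two_ne_zero] at e3
      exact (mul_ne_zero hz hw) e3
    refine ⟨⟨y / (x * s), 1, div_ne_zero hy (mul_ne_zero hx hs0), ?_, by rw [sub_self, norm_zero]; norm_num⟩,
      y / x, hyx, by rw [e1, hN2]⟩
    have e4 : y ^ 2 = x * (x * s) ^ 2 := by rw [hxy, ← e3]; ring
    field_simp
    linear_combination -e4

end Pool.Agent.H345.X24
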