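import Pool.Agent.H345.X24.Loc
import Pool.Agent.H345.X24.Two
import Pool.Graph.R_pool_sql_team_seeded_3dad9d7b.NH57.SQ.Card

/-!
# Twists of `X_0(24)`: the 2-Selmer group of `E : y² = x (x + n) (x - 3 n)`, necessary conditions
-/

set_option autoImplicit false
set_option linter.all false

open scoped Classical

namespace Pool.Agent.H345.X24

open Pool.Agent.NH3.XT (Loc Sel AS CS H1 H3 A2 C2)
open Pool.Agent.NH3.XT.LA (sq1 mulsq norm_unit ne_of_unit)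
open Pool.Agent.NH57.SQ.XL

/-- the class of the numbers `n` -/
structure Cl (n : ℤ) : Prop where
  pos : 0 < n
  sq : Squarefree n
  md : n % 24 = 11

namespace Cl

variable {n : ℤ} (h : Cl n)

include h

theorem m8 : n % 8 = 3 := by have := h.md; omega
theorem m3 : n % 3 = 2 := by have := h.md; omega
theorem m4 : n % 4 = 3 := by have := h.md; omega
theorem ne : n ≠ 0 := h.pos.ne'

theorem p23 {p : ℕ} (hp : (p : ℤ) ∣ n) : p ≠ 2 ∧ p ≠ 3 := by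
  have := h.md
  constructor
  · rintro rfl
    push_cast at hp
    omega
  · rintro rfl
    push_cast at hp
    omega

theorem p2 {p : ℕ} (hpp : p.Prime) : ¬ (p : ℤ) ^ 2 ∣ n := by
  intro hd
  rw [pow_two] at hd
  have h1 := h.sq _ hd
  rw [Int.isUnit_iff] at h1
  have h4 := hpp.one_lt
  omega

end Cl

/-- squares of `ℚ_p` in the ring of integers: a number exactly divisible by `p` is not a square -/
theorem not_sq_of_dvd {p : ℕ} [Fact p.Prime] {d : ℤ} (hd : Squarefree d) (h : (p : ℤ) ∣ d) :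
    ¬ IsSquare (d : ℚ_[p]) := by
  obtain ⟨d', rfl, -, h2⟩ := SQp.sqf_div hd h
  exact_mod_cast SQp.not_sq h2

theorem loc_prime {p : ℕ} [hp : Fact p.Prime] {n : ℤ} (h : Cl n) (hn : (p : ℤ) ∣ n) {d1 d2 : ℤ}
    (hL : Loc ℚ_[p] (-n) (3 * n) d1 d2) :
    (IsSquare (d1 : ℚ_[p]) ∧ IsSquare (d2 : ℚ_[p])) ∨
    (IsSquare ((-3 * d1 : ℤ) : ℚ_[p]) ∧ IsSquare ((n * d2 : ℤ) : ℚ_[p])) ∨
    (IsSquare ((-n * d1 : ℤ) : ℚ_[p]) ∧ IsSquare (d2 : ℚ_[p])) ∨
    (IsSquare ((3 * n * d1 : ℤ) : ℚ_[p]) ∧ IsSquare ((n * d2 : ℤ) : ℚ_[p])) := by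
  obtain ⟨hp2, hp3⟩ := h.p23 hn
  obtain ⟨x, y, hy, hxy, s1, s2⟩ := hL
  have hxy' : y ^ 2 = x * (x + n) * (x - 3 * n) := by rw [hxy]; push_cast; ring
  have hy2 : y ^ 2 ≠ 0 := pow_ne_zero 2 hy
  rw [hxy'] at hy2
  have hx : x ≠ 0 := left_ne_zero_of_mul (left_ne_zero_of_mul hy2)
  have hz : x + n ≠ 0 := right_ne_zero_of_mul (left_ne_zero_of_mul hy2)
  have s2' : IsSquare ((x + n) * d2) := by
    have : (x + n) * (d2 : ℚ_[p]) = (x - ((-n : ℤ) : ℚ_[p])) * d2 := by push_cast; ring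
    rw [this]
    exact s2
  have one : ∀ {z : ℚ_[p]}, IsSquare z → IsSquare (z * 1) := fun h => by rwa [mul_one]
  have key : ∀ {z : ℚ_[p]} {c : ℚ_[p]} {d : ℤ}, z ≠ 0 → IsSquare (z * c) → IsSquare (z * d) →
      IsSquare (c * d) := fun hz h1 h2 => mulsq hz h1 h2
  rcases core_p hp2 hp3 hn (h.p2 hp.out) hy hxy' with ⟨a, b⟩ | ⟨a, b⟩ | ⟨a, b⟩ | ⟨a, b⟩
  · left
    have h1 := key hx (one a) s1
    have h2 := key hz (one b) s2'
    rw [one_mul] at h1 h2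
    exact ⟨h1, h2⟩
  · right; left
    have h1 := key hx a s1
    have h2 := key hz b s2'
    exact ⟨by push_cast; exact h1, by push_cast; exact h2⟩
  · right; right; left
    have h1 := key hx a s1
    have h2 := key hz (one b) s2'
    rw [one_mul] at h2
    exact ⟨by push_cast; exact h1, h2⟩
  · right; right; right
    have h1 := key hx a s1
    have h2 := key hz b s2'
    exact ⟨by push_cast; exact h1, by push_cast; exact h2⟩

theorem loc_three {n : ℤ} (h : Cl n) {d1 d2 : ℤ} (hL : Loc ℚ_[3] (-n) (3 * n) d1 d2) :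
    (IsSquare (d2 : ℚ_[3]) ∧ (IsSquare (d1 : ℚ_[3]) ∨ IsSquare ((-d1 : ℤ) : ℚ_[3]))) ∨
    (IsSquare ((-d2 : ℤ) : ℚ_[3]) ∧ (IsSquare ((3 * d1 : ℤ) : ℚ_[3]) ∨
      IsSquare ((-3 * d1 : ℤ) : ℚ_[3]))) := by
  obtain ⟨x, y, hy, hxy, s1, s2⟩ := hL
  have hxy' : y ^ 2 = x * (x + n) * (x - 3 * n) := by rw [hxy]; push_cast; ring
  have hy2 : y ^ 2 ≠ 0 := pow_ne_zero 2 hy
  rw [hxy'] at hy2
  have hx : x ≠ 0 := left_ne_zero_of_mul (left_ne_zero_of_mul hy2)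
  have hz : x + n ≠ 0 := right_ne_zero_of_mul (left_ne_zero_of_mul hy2)
  have s2' : IsSquare ((x + n) * d2) := by
    have : (x + n) * (d2 : ℚ_[3]) = (x - ((-n : ℤ) : ℚ_[3])) * d2 := by push_cast; ring
    rw [this]
    exact s2
  have one : ∀ {z : ℚ_[3]}, IsSquare z → IsSquare (z * 1) := fun h => by rwa [mul_one]
  have key : ∀ {z : ℚ_[3]} {c : ℚ_[3]} {d : ℤ}, z ≠ 0 → IsSquare (z * c) → IsSquare (z * d) →
      IsSquare (c * d) := fun hz h1 h2 => mulsq hz h1 h2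
  rcases core_3 h.m3 hy hxy' with ⟨a, b⟩ | ⟨a, b⟩
  · left
    have h2 := key hz (one a) s2'
    rw [one_mul] at h2
    refine ⟨h2, ?_⟩
    rcases b with b | b
    · left
      have h1 := key hx (one b) s1
      rwa [one_mul] at h1
    · right
      have h1 := key hx b s1
      push_cast
      rwa [neg_one_mul] at h1
  · right
    have h2 := key hz a s2'
    rw [neg_one_mul] at h2
    refine ⟨by push_cast; exact h2, ?_⟩
    rcases b with b | b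
    · left
      have h1 := key hx b s1
      push_cast
      exact h1
    · right
      have h1 := key hx b s1
      push_cast
      exact h1

/-- the norm of a squarefree number whose product with a number of even valuation is a square -/
theorem odd_of_even {d : ℤ} (hd : Squarefree d) {x z : ℚ_[2]} (hz : z ≠ 0) (hxz : ‖x‖ = ‖z‖ ^ 2)
    (hs : IsSquare (x * d)) : d % 2 = 1 := by
  by_contra hcon
  have h2 : ((2 : ℕ) : ℤ) ∣ d := by push_cast; omega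
  obtain ⟨d', rfl, -, h3⟩ := SQp.sqf_div (p := 2) hd h2
  obtain ⟨t, ht⟩ := hs
  have hdn : ‖(((2 : ℕ) : ℤ) * d' : ℤ)‖ = ‖(((2 : ℕ) : ℤ) * d' : ℤ)‖ := rfl
  have hdn : ‖((((2 : ℕ) : ℤ) * d' : ℤ) : ℚ_[2])‖ = ((2 : ℕ) : ℝ)⁻¹ := by
    rw [Int.cast_mul, norm_mul, Pool.Agent.H464.XB.norm_unit h3, mul_one]
    have := Padic.norm_p (p := 2)
    exact_mod_cast this
  have h4 := congrArg norm ht
  rw [norm_mul, norm_mul, hxz, ← sq ‖t‖] at h4
  exact Pool.Agent.H464.XB.norm_sq_ne hz hdn h4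

theorem loc_two {n : ℤ} (h : Cl n) {d1 d2 : ℤ} (hd1 : Squarefree d1) (hd2 : Squarefree d2)
    (hL : Loc ℚ_[2] (-n) (3 * n) d1 d2) : d1 % 4 = 1 ∧ d2 % 2 = 1 := by
  obtain ⟨x, y, hy, hxy, s1, s2⟩ := hL
  have hxy' : y ^ 2 = x * (x + n) * (x - 3 * n) := by rw [hxy]; push_cast; ring
  have s2' : IsSquare ((x + n) * d2) := by
    have : (x + n) * (d2 : ℚ_[2]) = (x - ((-n : ℤ) : ℚ_[2])) * d2 := by push_cast; ring
    rw [this]
    exact s2
  obtain ⟨⟨r, w, hr, hx, hw⟩, z, hz, hzn⟩ := core_2 h.m8 hy hxy'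
  refine ⟨?_, odd_of_even hd2 hz hzn s2'⟩
  have hwn : ‖w‖ = 1 := by
    have e : w = (w - 1) + 1 := by ring
    rw [e, Padic.add_eq_max_of_ne (by rw [norm_one]; linarith), norm_one]
    exact max_eq_right (by linarith)
  have hodd : d1 % 2 = 1 := odd_of_even hd1 hr (by rw [hx, norm_mul, hwn, mul_one, norm_pow]) s1
  obtain ⟨t, ht⟩ := s1
  have h1 : w * d1 = (t / r) ^ 2 := by
    rw [div_pow, eq_div_iff (pow_ne_zero 2 hr), sq t, ← ht, hx]
    ring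
  have hd1n : ‖(d1 : ℚ_[2])‖ = 1 := norm_odd hodd
  have htr : ‖t / r‖ = 1 := by
    have h2 := congrArg norm h1
    rw [norm_mul, hwn, hd1n, norm_pow, one_mul] at h2
    nlinarith [norm_nonneg (t / r)]
  obtain ⟨a, ha⟩ : ∃ a : ℤ_[2], (a : ℚ_[2]) = w := ⟨⟨w, hwn.le⟩, rfl⟩
  obtain ⟨b, hb⟩ : ∃ b : ℤ_[2], (b : ℚ_[2]) = t / r := ⟨⟨t / r, htr.le⟩, rfl⟩
  have h2 : a * d1 = b ^ 2 := by
    have : ((a * d1 : ℤ_[2]) : ℚ_[2]) = ((b ^ 2 : ℤ_[2]) : ℚ_[2]) := by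
      push_cast
      rw [ha, hb]
      exact h1
    exact Subtype.ext this
  have ha1 : PadicInt.toZModPow (p := 2) 2 a = 1 := by
    have h3 : ‖(a - 1 : ℤ_[2])‖ ≤ ((2 : ℕ) : ℝ) ^ (-(2 : ℕ) : ℤ) := by
      rw [PadicInt.norm_def]
      push_cast
      rw [ha]
      refine hw.trans ?_
      norm_num
    have h4 : (a - 1) ∈ Ideal.span {((2 : ℕ) : ℤ_[2]) ^ 2} := (PadicInt.norm_le_pow_iff_mem_span_pow _ 2).1 h3
    rw [← PadicInt.ker_toZModPow, RingHom.mem_ker, map_sub, map_one] at h4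
    exact sub_eq_zero.1 h4
  have h3 := congrArg (PadicInt.toZModPow (p := 2) 2) h2
  rw [map_mul, map_pow, ha1, one_mul, map_intCast] at h3
  have hbu : IsUnit b := PadicInt.isUnit_iff.2 (by rw [PadicInt.norm_def, hb, htr])
  obtain ⟨b', hb'⟩ := (hbu.map (PadicInt.toZModPow (p := 2) 2)).exists_right_inv
  have key : ∀ t : ZMod (2 ^ 2), (∃ t', t * t' = 1) → t ^ 2 = 1 := by decide
  rw [key _ ⟨b', hb'⟩] at h3
  have h4 : ((d1 : ℤ) : ZMod (2 ^ 2)) = ((1 : ℤ) : ZMod (2 ^ 2)) := by rw [h3]; simp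
  rw [ZMod.intCast_eq_intCast_iff] at h4
  have h5 : d1 % _ = 1 % _ := h4
  push_cast at h5
  omega

theorem loc_inf {n : ℤ} (h : Cl n) {d1 d2 : ℤ} (hd2 : d2 ≠ 0)
    (hL : Loc ℝ (-n) (3 * n) d1 d2) : 0 < d2 := by
  obtain ⟨x, y, hy, hxy, s1, s2⟩ := hL
  have hn : (0 : ℝ) < n := by exact_mod_cast h.pos
  have hy2 : 0 < y ^ 2 := by positivity
  push_cast at hxy s2
  have hx : 0 < x + n := by
    by_contra hcon
    push Not at hcon
    have h1 : x < 0 := by linarith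
    have h2 : x - 3 * n < 0 := by linarith
    have h3 : 0 ≤ x * (x - 3 * n) := by nlinarith
    nlinarith
  have h1 : 0 ≤ (x - -n) * (d2 : ℝ) := s2.nonneg
  have h2 : 0 ≤ (d2 : ℝ) := by
    by_contra hcon
    push Not at hcon
    nlinarith
  have h3 : 0 ≤ d2 := by exact_mod_cast h2
  omega

theorem loc_good' {p : ℕ} [hp : Fact p.Prime] {n : ℤ} (h : Cl n) (hp2 : p ≠ 2) (hp3 : p ≠ 3)
    (hn : ¬ (p : ℤ) ∣ n) {d1 d2 : ℤ} (hd1 : Squarefree d1) (hd2 : Squarefree d2)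
    (hL : Loc ℚ_[p] (-n) (3 * n) d1 d2) : ¬ (p : ℤ) ∣ d1 ∧ ¬ (p : ℤ) ∣ d2 := by
  obtain ⟨x, y, hy, hxy, ⟨u, hu⟩, ⟨w, hw⟩⟩ := hL
  have hpp := Nat.prime_iff_prime_int.1 hp.out
  have h3 : ¬ (p : ℤ) ∣ 3 := fun h => by
    have h1 : p ∣ 3 := by exact_mod_cast h
    exact hp3 ((Nat.prime_dvd_prime_iff_eq hp.out Nat.prime_three).1 h1)
  have h4 : ¬ (p : ℤ) ∣ 4 := fun h => by
    have h1 : p ∣ 2 ^ 2 := by exact_mod_cast h
    exact hp2 ((Nat.prime_dvd_prime_iff_eq hp.out Nat.prime_two).1 (hp.out.dvd_of_dvd_pow h1))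
  have k1 : ¬ (p : ℤ) ∣ -n := by rwa [dvd_neg]
  have k2 : ¬ (p : ℤ) ∣ 3 * n := fun h' => (hpp.dvd_or_dvd h').elim h3 hn
  have k3 : ¬ (p : ℤ) ∣ 4 * n := fun h' => (hpp.dvd_or_dvd h').elim h4 hn
  refine ⟨Pool.Agent.H464.XB.nec_one (u := ((-n : ℤ) : ℚ_[p])) (w := ((3 * n : ℤ) : ℚ_[p]))
    (norm_unit k1) (norm_unit k2) hy hxy hd1 hu, ?_⟩
  refine Pool.Agent.H464.XB.nec_one (x := x - ((-n : ℤ) : ℚ_[p])) (u := ((n : ℤ) : ℚ_[p]))
    (w := ((4 * n : ℤ) : ℚ_[p])) (norm_unit hn) (norm_unit k3) hy ?_ hd2 hw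
  rw [hxy]
  push_cast
  ring

end Pool.Agent.H345.X24
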