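import Pool.Agent.H345.X24.Sel
import Pool.Agent.H464.XB.Crd

/-!
# Twists of `X_0(24)`: the 2-Selmer group has four elements iff the Rédei kernel has two
-/

set_option autoImplicit false
set_option linter.all false

open scoped Classical

namespace Pool.Agent.H345.X24

open Pool.Agent.NH3.XT (Loc Sel AS CS H1 H3 A2 C2)
open Pool.Agent.NH3.XT.LA (sq1 mulsq norm_unit ne_of_unit)
open Pool.Agent.NH57.SQ
open Pool.Agent.H464.XB (hens pt_p pt_R Md sel_formula sel_four)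

/-! ### local points near the points of order two -/

section padic

variable {p : ℕ} [hp : Fact p.Prime]

theorem exists_small {c : ℝ} (hc : 0 < c) : ∃ s : ℚ_[p], s ≠ 0 ∧ ‖s‖ ^ 2 < c := by
  obtain ⟨s, h1, h2⟩ := NormedField.exists_norm_lt ℚ_[p] (r := min 1 c) (lt_min one_pos hc)
  refine ⟨s, norm_pos_iff.1 h1, ?_⟩
  have h3 := lt_min_iff.1 h2
  nlinarith

theorem int_le (k : ℤ) : ‖(k : ℚ_[p])‖ ≤ 1 := Padic.norm_int_le_one k

/-- the class of the point `(-n, 0)` -/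
theorem loc_T1 {n : ℤ} (hn : n ≠ 0) {d : ℤ} (hd : IsSquare ((-n * d : ℤ) : ℚ_[p])) :
    Loc ℚ_[p] (-n) (3 * n) d 1 := by
  have n0 : (n : ℚ_[p]) ≠ 0 := by exact_mod_cast hn
  have np : 0 < ‖(n : ℚ_[p])‖ := norm_pos_iff.2 n0
  have four0 : (4 : ℚ_[p]) ≠ 0 := by norm_num
  have fp : 0 < ‖(4 : ℚ_[p])‖ := norm_pos_iff.2 four0
  have f1 : ‖(4 : ℚ_[p])‖ ≤ 1 := by
    have := int_le (p := p) 4
    exact_mod_cast this
  obtain ⟨s, hs0, hs⟩ := exists_small (p := p) (c := ‖(4 : ℚ_[p])‖ ^ 2 * ‖(n : ℚ_[p])‖) (by positivity)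
  have h1 : ‖-(s ^ 2 / n)‖ < ‖(4 : ℚ_[p])‖ := by
    rw [norm_neg, norm_div, norm_pow, div_lt_iff₀ np]
    refine lt_of_lt_of_le hs ?_
    nlinarith [mul_pos fp np]
  have h2 : ‖-(s ^ 2 / (4 * n))‖ < ‖(4 : ℚ_[p])‖ := by
    rw [norm_neg, norm_div, norm_pow, norm_mul, div_lt_iff₀ (by positivity)]
    refine lt_of_lt_of_le hs ?_
    nlinarith
  obtain ⟨a, ha⟩ := hens h1
  obtain ⟨b, hb⟩ := hens h2
  obtain ⟨t, ht⟩ := hd
  push_cast at ht
  have ea : -n + s ^ 2 = -n * (a * a) := by rw [← ha]; field_simp; ring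
  have eb : -4 * n + s ^ 2 = -4 * n * (b * b) := by rw [← hb]; field_simp; ring
  have hne1 : -n + s ^ 2 ≠ 0 := by
    intro h0
    have : s ^ 2 / n = 1 := by field_simp; linear_combination h0
    rw [this, norm_neg, norm_one] at h1
    linarith
  have hne2 : -4 * n + s ^ 2 ≠ 0 := by
    intro h0
    have : s ^ 2 / (4 * n) = 1 := by field_simp; linear_combination h0
    rw [this, norm_neg, norm_one] at h2
    linarith
  have a0 : a ≠ 0 := by
    rintro rfl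
    exact hne1 (by rw [ea]; ring)
  have b0 : b ≠ 0 := by
    rintro rfl
    exact hne2 (by rw [eb]; ring)
  refine ⟨-n + s ^ 2, 2 * n * a * b * s, ?_, ?_, ⟨a * t, ?_⟩, ⟨s, ?_⟩⟩
  · exact mul_ne_zero (mul_ne_zero (mul_ne_zero (mul_ne_zero two_ne_zero n0) a0) b0) hs0
  · push_cast
    have e1 : (-n + s ^ 2 : ℚ_[p]) * (-n + s ^ 2 - -n) * (-n + s ^ 2 - 3 * n) =
        (-n + s ^ 2) * s ^ 2 * (-4 * n + s ^ 2) := by ring
    rw [e1, ea, eb]
    ring
  · rw [ea]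
    linear_combination (a * a) * ht
  · push_cast
    ring

/-- the class of the point `(0, 0)` -/
theorem loc_T0 {n : ℤ} (hn : n ≠ 0) : Loc ℚ_[p] (-n) (3 * n) (-3) n := by
  have n0 : (n : ℚ_[p]) ≠ 0 := by exact_mod_cast hn
  have np : 0 < ‖(n : ℚ_[p])‖ := norm_pos_iff.2 n0
  have four0 : (4 : ℚ_[p]) ≠ 0 := by norm_num
  have three0 : (3 : ℚ_[p]) ≠ 0 := by norm_num
  have fp : 0 < ‖(4 : ℚ_[p])‖ := norm_pos_iff.2 four0
  have f3 : ‖(3 : ℚ_[p])‖ ≤ 1 := by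
    have := int_le (p := p) 3
    exact_mod_cast this
  obtain ⟨s, hs0, hs⟩ := exists_small (p := p) (c := ‖(4 : ℚ_[p])‖ * ‖(n : ℚ_[p])‖) (by positivity)
  have h2 : ‖s ^ 2 / n‖ < ‖(4 : ℚ_[p])‖ := by
    rw [norm_div, norm_pow, div_lt_iff₀ np]
    exact hs
  have h1 : ‖-(3 * s ^ 2 / n)‖ < ‖(4 : ℚ_[p])‖ := by
    rw [norm_neg, mul_div_assoc, norm_mul]
    refine lt_of_le_of_lt ?_ h2
    have := norm_nonneg (s ^ 2 / (n : ℚ_[p]))
    nlinarith
  have f1 : ‖(4 : ℚ_[p])‖ ≤ 1 := by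
    have := int_le (p := p) 4
    exact_mod_cast this
  obtain ⟨a, ha⟩ := hens h1
  obtain ⟨b, hb⟩ := hens h2
  have ea : n - 3 * s ^ 2 = n * (a * a) := by rw [← ha]; field_simp; ring
  have eb : n + s ^ 2 = n * (b * b) := by rw [← hb]; field_simp
  have hne1 : (n : ℚ_[p]) - 3 * s ^ 2 ≠ 0 := by
    intro h0
    have : 3 * s ^ 2 / n = 1 := by field_simp; linear_combination -h0
    rw [this, norm_neg, norm_one] at h1
    linarith
  have hne2 : (n : ℚ_[p]) + s ^ 2 ≠ 0 := by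
    intro h0
    have : s ^ 2 / n = -1 := by field_simp; linear_combination h0
    rw [this, norm_neg, norm_one] at h2
    linarith
  have a0 : a ≠ 0 := by
    rintro rfl
    exact hne1 (by rw [ea]; ring)
  have b0 : b ≠ 0 := by
    rintro rfl
    exact hne2 (by rw [eb]; ring)
  refine ⟨-3 * s ^ 2, 3 * n * a * b * s, ?_, ?_, ⟨3 * s, ?_⟩, ⟨n * a, ?_⟩⟩
  · exact mul_ne_zero (mul_ne_zero (mul_ne_zero (mul_ne_zero three0 n0) a0) b0) hs0
  · push_cast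
    have e1 : (-3 * s ^ 2 : ℚ_[p]) * (-3 * s ^ 2 - -n) * (-3 * s ^ 2 - 3 * n) =
        9 * s ^ 2 * (n - 3 * s ^ 2) * (n + s ^ 2) := by ring
    rw [e1, ea, eb]
    ring
  · push_cast
    ring
  · push_cast
    have : (-3 * s ^ 2 - -n : ℚ_[p]) = n - 3 * s ^ 2 := by ring
    rw [this, ea]
    ring

/-- the trivial class -/
theorem loc_one {A B d : ℤ} (hd : IsSquare (d : ℚ_[p])) : Loc ℚ_[p] A B d 1 := by
  obtain ⟨q, r1, r2, r3, n1, n2, n3, q1, q2, q3⟩ := pt_p (p := p) A B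
  obtain ⟨s, hs⟩ := hd
  refine ⟨q, r1 * r2 * r3, mul_ne_zero (mul_ne_zero n1 n2) n3, ?_, ⟨r1 * s, ?_⟩, ⟨r2, ?_⟩⟩
  · rw [q2, q3, q1]; ring
  · rw [hs, q1]; ring
  · rw [q2]; push_cast; ring

end padic

theorem loc_R_one {n d : ℤ} (hn : 0 < n) (hd : d ≠ 0) : Loc ℝ (-n) (3 * n) d 1 := by
  have hn' : (0 : ℝ) < n := by exact_mod_cast hn
  rcases lt_or_gt_of_ne hd with h | h
  · have hd' : (d : ℝ) < 0 := by exact_mod_cast h
    refine ⟨-n / 2, Real.sqrt ((-n / 2) * (-n / 2 + n) * (-n / 2 - 3 * n)), ?_, ?_, ?_, ?_⟩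
    · have : 0 < (-n / 2 : ℝ) * (-n / 2 + n) * (-n / 2 - 3 * n) := by
        have : (-n / 2 : ℝ) * (-n / 2 + n) * (-n / 2 - 3 * n) = 7 / 8 * (n : ℝ) ^ 3 := by ring
        rw [this]
        positivity
      exact (Real.sqrt_pos.2 this).ne'
    · rw [Real.sq_sqrt]
      · push_cast; ring
      · have : (-n / 2 : ℝ) * (-n / 2 + n) * (-n / 2 - 3 * n) = 7 / 8 * (n : ℝ) ^ 3 := by ring
        rw [this]
        positivity
    · rw [Real.isSquare_iff]
      nlinarith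
    · rw [Real.isSquare_iff]
      push_cast
      nlinarith
  · have hd' : (0 : ℝ) < d := by exact_mod_cast h
    obtain ⟨q, r1, r2, r3, n1, n2, n3, q1, q2, q3⟩ := pt_R (-n) (3 * n)
    refine ⟨q, r1 * r2 * r3, mul_ne_zero (mul_ne_zero n1 n2) n3, ?_, ?_, ?_⟩
    · rw [q2, q3, q1]; ring
    · rw [Real.isSquare_iff, q1]
      positivity
    · rw [Real.isSquare_iff, q2]
      push_cast
      positivity

theorem loc_R_T0 {n : ℤ} (hn : 0 < n) : Loc ℝ (-n) (3 * n) (-3) n := by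
  have hn' : (0 : ℝ) < n := by exact_mod_cast hn
  have h1 : (-n / 2 : ℝ) * (-n / 2 + n) * (-n / 2 - 3 * n) = 7 / 8 * (n : ℝ) ^ 3 := by ring
  refine ⟨-n / 2, Real.sqrt ((-n / 2) * (-n / 2 + n) * (-n / 2 - 3 * n)), ?_, ?_, ?_, ?_⟩
  · refine (Real.sqrt_pos.2 ?_).ne'
    rw [h1]
    positivity
  · rw [Real.sq_sqrt]
    · push_cast; ring
    · rw [h1]
      positivity
  · rw [Real.isSquare_iff]
    push_cast
    nlinarith
  · rw [Real.isSquare_iff]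
    push_cast
    nlinarith

/-- the class `(-1, 1)` at the prime three -/
theorem loc_3_neg {n : ℤ} (h : Cl n) {d : ℤ} (hd : IsSquare ((-d : ℤ) : ℚ_[3])) :
    Loc ℚ_[3] (-n) (3 * n) d 1 := by
  have h3 := h.m3
  obtain ⟨a, ha0, ha⟩ := sq1 (p := 3) (by norm_num) (r := ((n - 2 : ℤ) : ℚ_[3])) (by
    rw [Padic.norm_intCast_lt_one_iff]; push_cast; omega)
  obtain ⟨b, hb0, hb⟩ := sq1 (p := 3) (by norm_num) (r := ((3 * n : ℤ) : ℚ_[3])) (by
    rw [Padic.norm_intCast_lt_one_iff]; push_cast; omega)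
  push_cast at ha hb
  obtain ⟨t, ht⟩ := hd
  refine ⟨-1, a * b, mul_ne_zero ha0 hb0, ?_, ⟨t, ?_⟩, ⟨a, ?_⟩⟩
  · rw [mul_pow, ← ha, ← hb]
    push_cast
    ring
  · rw [← ht]
    push_cast
    ring
  · push_cast
    linear_combination ha

theorem sqneg {a : ℤ} (h : Squarefree a) : Squarefree (-a) := fun x hx => h x (dvd_neg.1 hx)

/-! ### squares modulo eight and modulo three -/

theorem sq_mod8 {d : ℤ} (h : d % 8 = 1) : IsSquare (d : ℚ_[2]) := by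
  have h1 : ‖((d - 1 : ℤ) : ℚ_[2])‖ < ‖(4 : ℚ_[2])‖ := by
    rw [norm_four]
    have h5 : (2 ^ 3 : ℤ) ∣ (d - 1) := by norm_num; omega
    have := (Padic.norm_int_le_pow_iff_dvd (p := 2) (d - 1) 3).2 (by exact_mod_cast h5)
    refine lt_of_le_of_lt this ?_
    norm_num
  obtain ⟨a, ha⟩ := hens h1
  refine ⟨a, ?_⟩
  rw [← ha]
  push_cast
  ring

theorem sq_mod3 {d : ℤ} (h : d % 3 = 1) : IsSquare (d : ℚ_[3]) := by
  obtain ⟨a, ha0, ha⟩ := sq1 (p := 3) (by norm_num) (r := ((d - 1 : ℤ) : ℚ_[3])) (by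
    rw [Padic.norm_intCast_lt_one_iff]; push_cast; omega)
  refine ⟨a, ?_⟩
  rw [← sq, ← ha]
  push_cast
  ring

/-! ### the Selmer group and the two factors -/

variable {n : ℤ}

theorem dvd_neg_iff {p : ℕ} : (p : ℤ) ∣ -n ↔ (p : ℤ) ∣ n := dvd_neg

/-- `(d, 1)` is a Selmer class for all `d` in the first factor -/
theorem as_mem (h : Cl n) {d : ℤ} (hd : d ∈ AS (-n)) : (d, (1 : ℤ)) ∈ Sel (-n) (3 * n) := by
  obtain ⟨hs, h2, hp⟩ := hd
  have m4 : (-n) % 4 = 1 := by have := h.m4; omega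
  have hd4 : d % 4 = 1 := by
    rcases h2 with ⟨-, h2⟩ | ⟨h3, -⟩
    · exact h2
    · exact absurd m4 h3
  refine ⟨hs, squarefree_one, loc_R_one h.pos hs.ne_zero, fun p hpp => ?_⟩
  by_cases hp2 : p = 2
  · subst hp2
    have h8 := h.m8
    rcases (by omega : d % 8 = 1 ∨ d % 8 = 5) with h5 | h5
    · exact loc_one (sq_mod8 h5)
    · refine loc_T1 h.ne (sq_mod8 ?_)
      have : (-n * d) % 8 = ((-n) % 8) * (d % 8) % 8 := Int.mul_emod _ _ _
      rw [this, h5, show (-n) % 8 = 5 by omega]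
      norm_num
  by_cases hpn : (p : ℤ) ∣ n
  · rcases (hp p hp2).1 (dvd_neg_iff.2 hpn) with h5 | h5
    · exact loc_one h5
    · refine loc_T1 h.ne ?_
      rwa [mul_comm]
  · have h5 := (hp p hp2).2 (fun h' => hpn (dvd_neg_iff.1 h'))
    by_cases hp3 : p = 3
    · subst hp3
      push_cast at h5
      rcases (by omega : d % 3 = 1 ∨ d % 3 = 2) with h6 | h6
      · exact loc_one (sq_mod3 h6)
      · exact loc_3_neg h (sq_mod3 (by omega))
    · have hq := Nat.prime_iff_prime_int.1 hpp.out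
      have h3 : ¬ (p : ℤ) ∣ 3 := fun h => by
        have h1 : p ∣ 3 := by exact_mod_cast h
        exact hp3 ((Nat.prime_dvd_prime_iff_eq hpp.out Nat.prime_three).1 h1)
      have h4 : ¬ (p : ℤ) ∣ 4 := fun h => by
        have h1 : p ∣ 2 ^ 2 := by exact_mod_cast h
        exact hp2 ((Nat.prime_dvd_prime_iff_eq hpp.out Nat.prime_two).1 (hpp.out.dvd_of_dvd_pow h1))
      refine Pool.Agent.H464.XB.loc_good hp2 (fun h' => hpn (dvd_neg_iff.1 h'))
        (fun h' => (hq.dvd_or_dvd h').elim h3 hpn) (fun h' => ?_) h5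
        (fun h' => hpp.out.one_lt.ne' (Nat.dvd_one.1 (by
          have h'' : (p : ℤ) ∣ 1 := h'
          exact_mod_cast h'')))
      have e : -n - 3 * n = -(4 * n) := by ring
      rw [e, dvd_neg] at h'
      exact (hq.dvd_or_dvd h').elim h4 hpn

/-- `(-3, n)` is a Selmer class -/
theorem t0_mem (h : Cl n) : ((-3 : ℤ), n) ∈ Sel (-n) (3 * n) := by
  refine ⟨?_, h.sq, loc_R_T0 h.pos, fun p hpp => loc_T0 h.ne⟩
  have : Squarefree (3 : ℤ) := Int.prime_three.squarefree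
  simpa using sqneg this

/-- the second coordinates -/
theorem cs_of (h : Cl n) {d1 d2 : ℤ} (hd : (d1, d2) ∈ Sel (-n) (3 * n)) : d2 ∈ CS (-n) := by
  obtain ⟨hs1, hs2, hR, hp⟩ := hd
  have m4 : (-n) % 4 = 1 := by have := h.m4; omega
  refine ⟨hs2, loc_inf h hs2.ne_zero hR, Or.inl ⟨m4, (loc_two h hs1 hs2 (hp 2)).2⟩,
    fun p hpp hp2 => ⟨fun hpn => ?_, fun hpn => ?_⟩⟩
  · have hpn' := dvd_neg_iff.1 hpn
    have e : ((-(d2 * -n) : ℤ) : ℚ_[p]) = ((n * d2 : ℤ) : ℚ_[p]) := by push_cast; ring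
    unfold H3
    rw [e]
    rcases loc_prime h hpn' (hp p) with ⟨-, b⟩ | ⟨-, b⟩ | ⟨-, b⟩ | ⟨-, b⟩
    · exact Or.inl b
    · exact Or.inr b
    · exact Or.inl b
    · exact Or.inr b
  · have hpn' : ¬ (p : ℤ) ∣ n := fun h' => hpn (dvd_neg_iff.2 h')
    by_cases hp3 : p = 3
    · subst hp3
      intro hd
      rcases loc_three h (hp 3) with ⟨b, -⟩ | ⟨b, -⟩
      · exact not_sq_of_dvd hs2 hd b
      · exact not_sq_of_dvd (sqneg hs2) (by rwa [dvd_neg]) b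
    · exact (loc_good' h hp2 hp3 hpn' hs1 hs2 (hp p)).2

theorem not_sq_neg_one : ¬ IsSquare ((-1 : ℤ) : ℚ_[3]) := by
  rw [XL.SQp.iff_jac (p := 3) (by norm_num) (by norm_num)]
  norm_num

theorem not_sq_n3 (h : Cl n) : ¬ IsSquare (n : ℚ_[3]) := by
  have h3 := h.m3
  rw [XL.SQp.iff_jac (p := 3) (by norm_num) (by push_cast; omega), jacobiSym.mod_left]
  push_cast
  rw [h3]
  norm_num

/-- the first coordinates of the classes `(d, 1)` -/
theorem as_of (h : Cl n) {d : ℤ} (hd : (d, (1 : ℤ)) ∈ Sel (-n) (3 * n)) : d ∈ AS (-n) := by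
  obtain ⟨hs1, hs2, hR, hp⟩ := hd
  have m4 : (-n) % 4 = 1 := by have := h.m4; omega
  refine ⟨hs1, Or.inl ⟨m4, (loc_two h hs1 hs2 (hp 2)).1⟩,
    fun p hpp hp2 => ⟨fun hpn => ?_, fun hpn => ?_⟩⟩
  · have hpn' := dvd_neg_iff.1 hpn
    have e : ((d * -n : ℤ) : ℚ_[p]) = ((-n * d : ℤ) : ℚ_[p]) := by push_cast; ring
    unfold H1
    rw [e]
    have hnn : ¬ IsSquare ((n * 1 : ℤ) : ℚ_[p]) := by
      rw [mul_one]
      exact not_sq_of_dvd h.sq hpn'
    rcases loc_prime h hpn' (hp p) with ⟨a, b⟩ | ⟨a, b⟩ | ⟨a, b⟩ | ⟨a, b⟩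
    · exact Or.inl a
    · exact absurd b hnn
    · exact Or.inr a
    · exact absurd b hnn
  · have hpn' : ¬ (p : ℤ) ∣ n := fun h' => hpn (dvd_neg_iff.2 h')
    by_cases hp3 : p = 3
    · subst hp3
      intro hd
      rcases loc_three h (hp 3) with ⟨-, b⟩ | ⟨b, -⟩
      · rcases b with b | b
        · exact not_sq_of_dvd hs1 hd b
        · exact not_sq_of_dvd (sqneg hs1) (by rwa [dvd_neg]) b
      · exact not_sq_neg_one b
    · exact (loc_good' h hp2 hp3 hpn' hs1 hs2 (hp p)).1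

/-- the first coordinates of the classes `(d, n)` -/
theorem as_of_n (h : Cl n) {d : ℤ} (hd : (d, n) ∈ Sel (-n) (3 * n)) :
    ∃ d' : ℤ, d = -3 * d' ∧ d' ∈ AS (-n) := by
  obtain ⟨hs1, hs2, hR, hp⟩ := hd
  have m4 : (-n) % 4 = 1 := by have := h.m4; omega
  have h3 : ((3 : ℕ) : ℤ) ∣ d := by
    by_contra hcon
    rcases loc_three h (hp 3) with ⟨b, -⟩ | ⟨-, b⟩
    · exact not_sq_n3 h b
    · rcases b with b | b
      · exact XL.SQp.not_sq (p := 3) hcon (by exact_mod_cast b)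
      · refine XL.SQp.not_sq (p := 3) (n := -d) (by rwa [dvd_neg]) ?_
        have e : ((((3 : ℕ) : ℤ) * -d : ℤ) : ℚ_[3]) = ((-3 * d : ℤ) : ℚ_[3]) := by push_cast; ring
        exact_mod_cast (e ▸ b)
  obtain ⟨d', hd', -, h4⟩ := XL.SQp.sqf_div (p := 3) hs1 h3
  push_cast at hd'
  refine ⟨-d', by rw [hd']; ring, ?_, Or.inl ⟨m4, ?_⟩, fun p hpp hp2 => ⟨fun hpn => ?_, fun hpn => ?_⟩⟩
  · exact sqneg (hs1.squarefree_of_dvd ⟨3, by rw [hd']; ring⟩)
  · have := (loc_two h hs1 hs2 (hp 2)).1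
    omega
  · have hpn' := dvd_neg_iff.1 hpn
    have hnn : ¬ IsSquare ((n : ℤ) : ℚ_[p]) := not_sq_of_dvd h.sq hpn'
    have three0 : (3 : ℚ_[p]) ≠ 0 := by norm_num
    rcases loc_prime h hpn' (hp p) with ⟨a, b⟩ | ⟨a, b⟩ | ⟨a, b⟩ | ⟨a, b⟩
    · exact absurd b hnn
    · left
      obtain ⟨t, ht⟩ := a
      refine ⟨t / 3, ?_⟩
      rw [hd'] at ht
      push_cast at ht ⊢
      field_simp
      linear_combination ht
    · exact absurd b hnn
    · right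
      obtain ⟨t, ht⟩ := a
      refine ⟨t / 3, ?_⟩
      rw [hd'] at ht
      push_cast at ht ⊢
      field_simp
      linear_combination ht
  · have hpn' : ¬ (p : ℤ) ∣ n := fun h' => hpn (dvd_neg_iff.2 h')
    rw [dvd_neg]
    by_cases hp3 : p = 3
    · subst hp3
      exact h4
    · intro h5
      exact (loc_good' h hp2 hp3 hpn' hs1 hs2 (hp p)).1 (by rw [hd']; exact Dvd.dvd.mul_left h5 3)

/-- the sizes of the two factors -/
theorem sizes (h : Cl n) : (AS (-n)).Finite ∧ (CS (-n)).Finite ∧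
    (AS (-n)).ncard = Pool.Agent.NH4.XG.nx n.natAbs.primeFactors ∧
    (CS (-n)).ncard = Pool.Agent.NH4.XG.nx n.natAbs.primeFactors := by
  have h0 : -n < 0 := by have := h.pos; omega
  have m4 : (-n) % 4 = 1 := by have := h.m4; omega
  obtain ⟨c1, c2⟩ := XL.t_CSa XL.t_SQ (-n) h0 (sqneg h.sq) m4
  obtain ⟨a1, a2⟩ := XL.t_ASa XL.t_SQ (-n) h0 (sqneg h.sq) m4
  rw [Int.natAbs_neg] at a2 c2
  have hp : ∀ p ∈ n.natAbs.primeFactors, p.Prime := fun p hp => Nat.prime_of_mem_primeFactors hp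
  rw [XL.t_TR _ hp] at a2
  exact ⟨a1, c1, a2, c2⟩

end Pool.Agent.H345.X24
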