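import Pool.Agent.H345.X24.SelB
import Pool.Agent.H464.XB.Ker

/-!
# Twists of `X_0(24)`: the 2-Selmer group and the Rédei kernel
-/

set_option autoImplicit false
set_option linter.all false

open scoped Classical

namespace Pool.Agent.H345.X24

open Pool.Agent.NH3.XT (Loc Sel AS CS H1 H3 A2 C2)
open Pool.Agent.H464.XB (Md sel_formula sel_four Red card_red card_two red_one nx_eq)
open Pool.Agent.TH841.SH.D (ShaTor rk Sha)

/-- the curve `y² = x (x + n) (x - 3 n)` over `ℚ` -/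
def EW (n : ℤ) : WeierstrassCurve ℚ := ⟨0, -(2 * (n : ℚ)), 0, -(3 * (n : ℚ) ^ 2), 0⟩

theorem md_EW {n : ℤ} (hn : n ≠ 0) : Md (EW n) (-n) (3 * n) 0 (-(n : ℚ)) (3 * (n : ℚ)) 1 where
  r := by
    refine ⟨rfl, ?_, rfl, ?_, ?_⟩
    · show -(2 * (n : ℚ)) = _
      ring
    · show -(3 * (n : ℚ) ^ 2) = _
      ring
    · show (0 : ℚ) = _
      ring
  l0 := one_ne_zero
  A0 := by simpa using hn
  B0 := by simpa using hn
  AB := by
    intro h
    apply hn
    linarith
  hb := by push_cast; ring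
  hc := by push_cast; ring

variable {n : ℤ}

/-- squarefree numbers with restricted prime divisors -/
theorem dvd_of_primes {d m : ℤ} (hd : Squarefree d) (hm : m ≠ 0)
    (h : ∀ p : ℕ, p.Prime → (p : ℤ) ∣ d → (p : ℤ) ∣ m) : d ∣ m := by
  rw [← Int.natAbs_dvd_natAbs]
  have hs := Int.squarefree_natAbs.2 hd
  rw [← Nat.prod_primeFactors_of_squarefree hs]
  refine (Finset.prod_dvd_prod_of_subset _ _ _ fun p hp => ?_).trans (Nat.prod_primeFactors_dvd m.natAbs)
  have hpp := Nat.prime_of_mem_primeFactors hp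
  have h1 := h p hpp (Int.natCast_dvd.2 (Nat.dvd_of_mem_primeFactors hp))
  exact Nat.mem_primeFactors.2 ⟨hpp, Int.natCast_dvd.1 h1, Int.natAbs_ne_zero.2 hm⟩

theorem d1_dvd (h : Cl n) {d1 d2 : ℤ} (hd : (d1, d2) ∈ Sel (-n) (3 * n)) : d1 ∣ 3 * n := by
  obtain ⟨hs1, hs2, hR, hp⟩ := hd
  refine dvd_of_primes hs1 (mul_ne_zero (by norm_num) h.ne) fun p hpp hpd => ?_
  haveI := Fact.mk hpp
  by_cases hpn : (p : ℤ) ∣ n
  · exact Dvd.dvd.mul_left hpn 3
  by_cases hp3 : p = 3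
  · subst hp3
    exact Dvd.intro n rfl
  by_cases hp2 : p = 2
  · subst hp2
    have h2 := (loc_two h hs1 hs2 (hp 2)).1
    push_cast at hpd
    omega
  · exact absurd hpd (loc_good' h hp2 hp3 hpn hs1 hs2 (hp p)).1

theorem sel_finite (h : Cl n) : (Sel (-n) (3 * n)).Finite := by
  refine ((Set.finite_Icc (-(3 * n)) (3 * n)).prod (sizes h).2.1).subset ?_
  rintro ⟨d1, d2⟩ hd
  refine ⟨?_, cs_of h hd⟩
  have h1 := d1_dvd h hd
  have h3 : (0 : ℤ) < 3 * n := by have := h.pos; omega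
  have h2 := Int.natAbs_dvd_natAbs.2 h1
  have h4 := Nat.le_of_dvd (Int.natAbs_pos.2 h3.ne') h2
  exact ⟨by simp only; omega, by simp only; omega⟩

theorem one_as (h : Cl n) : (1 : ℤ) ∈ AS (-n) := by
  have m4 : (-n) % 4 = 1 := by have := h.m4; omega
  refine ⟨squarefree_one, Or.inl ⟨m4, by norm_num⟩, fun p hpp hp2 => ⟨fun _ => Or.inl ?_, fun _ hd => ?_⟩⟩
  · exact ⟨1, by push_cast; ring⟩
  · exact hpp.out.one_lt.ne' (Nat.dvd_one.1 (by exact_mod_cast hd))

theorem neg_as (h : Cl n) : -n ∈ AS (-n) := by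
  have m4 : (-n) % 4 = 1 := by have := h.m4; omega
  refine ⟨sqneg h.sq, Or.inl ⟨m4, m4⟩, fun p hpp hp2 => ⟨fun _ => Or.inr ?_, fun hd => hd⟩⟩
  exact ⟨n, by push_cast; ring⟩

theorem one_cs (h : Cl n) : (1 : ℤ) ∈ CS (-n) := by
  have m4 : (-n) % 4 = 1 := by have := h.m4; omega
  refine ⟨squarefree_one, one_pos, Or.inl ⟨m4, by norm_num⟩,
    fun p hpp hp2 => ⟨fun _ => Or.inl ?_, fun _ hd => ?_⟩⟩
  · exact ⟨1, by push_cast; ring⟩
  · exact hpp.out.one_lt.ne' (Nat.dvd_one.1 (by exact_mod_cast hd))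

theorem n_cs (h : Cl n) : n ∈ CS (-n) := by
  have m4 : (-n) % 4 = 1 := by have := h.m4; omega
  refine ⟨h.sq, h.pos, Or.inl ⟨m4, by have := h.m4; omega⟩,
    fun p hpp hp2 => ⟨fun _ => Or.inr ?_, fun hd => fun h' => hd ((dvd_neg).2 h')⟩⟩
  exact ⟨n, by push_cast; ring⟩

/-- a two-element set -/
theorem two_elts {S : Set ℤ} {a b : ℤ} (hf : S.Finite) (hc : S.ncard = 2) (ha : a ∈ S) (hb : b ∈ S)
    (hab : a ≠ b) : ∀ x ∈ S, x = a ∨ x = b := by
  have h1 : ({a, b} : Set ℤ) ⊆ S := by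
    rintro x (rfl | rfl)
    · exact ha
    · exact hb
  have h2 : ({a, b} : Set ℤ) = S := by
    refine Set.eq_of_subset_of_ncard_le h1 ?_ hf
    rw [hc, Set.ncard_pair hab]
  intro x hx
  rw [← h2] at hx
  exact hx

theorem card_ge (h : Cl n) : ∃ k : ℕ, 0 < k ∧ Nat.card (Sel (-n) (3 * n)) = 4 * k := by
  obtain ⟨h1, h2⟩ := sel_formula (md_EW h.ne) (sel_finite h)
  have s0 : Nonempty (ShaTor (EW n) 2) := ⟨⟨0, smul_zero _⟩⟩
  refine ⟨2 ^ rk (EW n) * Nat.card (ShaTor (EW n) 2), Nat.mul_pos (by positivity) Nat.card_pos, ?_⟩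
  rw [h2]
  ring

theorem card_of_two (h : Cl n) (hx : Pool.Agent.NH4.XG.nx n.natAbs.primeFactors = 2) :
    Nat.card (Sel (-n) (3 * n)) = 4 := by
  obtain ⟨a1, c1, a2, c2⟩ := sizes h
  rw [hx] at a2 c2
  have hn1 : (1 : ℤ) ≠ n := by have := h.md; omega
  have hn2 : (1 : ℤ) ≠ -n := by have := h.pos; omega
  have hA := two_elts a1 a2 (one_as h) (neg_as h) hn2
  have hC := two_elts c1 c2 (one_cs h) (n_cs h) hn1
  have hsub : Sel (-n) (3 * n) ⊆ ((({(1, 1), (-n, 1), (-3, n), (3 * n, n)} : Finset (ℤ × ℤ))) :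
      Set (ℤ × ℤ)) := by
    rintro ⟨d1, d2⟩ hd
    simp only [Finset.coe_insert, Finset.coe_singleton, Set.mem_insert_iff, Set.mem_singleton_iff,
      Prod.mk.injEq]
    rcases hC _ (cs_of h hd) with rfl | h2
    · rcases hA _ (as_of h hd) with rfl | rfl
      · exact Or.inl ⟨rfl, rfl⟩
      · exact Or.inr (Or.inl ⟨rfl, rfl⟩)
    · subst h2
      obtain ⟨d', rfl, hd'⟩ := as_of_n h hd
      rcases hA _ hd' with rfl | rfl
      · exact Or.inr (Or.inr (Or.inl ⟨by ring, rfl⟩))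
      · exact Or.inr (Or.inr (Or.inr ⟨by ring, rfl⟩))
  have h4 : Nat.card (Sel (-n) (3 * n)) ≤ 4 := by
    rw [Nat.card_coe_set_eq]
    refine (Set.ncard_le_ncard hsub (Finset.finite_toSet _)).trans ?_
    rw [Set.ncard_coe_finset]
    exact Finset.card_le_four
  obtain ⟨k, hk, hk2⟩ := card_ge h
  omega

/-- the number of the elements of the kernel is even -/
theorem red_even {N : ℕ} (hs : Squarefree N) (hN : 1 < N) : Even (Nat.card {d : ℕ // Red N d}) := by
  have hN0 : N ≠ 0 := by omega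
  haveI : Finite {d : ℕ // Red N d} := by
    refine Finite.of_injective (β := {d // d ∈ N.divisors})
      (fun d => ⟨d.1, Nat.mem_divisors.2 ⟨d.2.1, hN0⟩⟩) fun a b hab => ?_
    exact Subtype.ext (congrArg (fun x => x.1) hab)
  have hco : ∀ {d : ℕ}, d ∣ N → Nat.Coprime d (N / d) := by
    intro d hd
    obtain ⟨e, rfl⟩ := hd
    have hd0 : 0 < d := Nat.pos_of_ne_zero (by rintro rfl; simp at hN0)
    rw [Nat.mul_div_cancel_left _ hd0]
    exact (Nat.squarefree_mul_iff.1 hs).1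
  have inv : ∀ {d : ℕ}, Red N d → Red N (N / d) := by
    rintro d ⟨hd, h1, h2⟩
    refine ⟨Nat.div_dvd_of_dvd hd, fun p hp hpN hpd => ?_, fun p hp hpd => ?_⟩
    · have hpd' : p ∣ d := by
        have e : d * (N / d) = N := Nat.mul_div_cancel' hd
        rw [← e] at hpN
        exact ((hp.dvd_mul).1 hpN).resolve_right hpd
      exact h2 p hp hpd'
    · have hpd' : ¬ p ∣ d := fun h => hp.one_lt.ne' (Nat.dvd_one.1 ((hco hd) ▸ Nat.dvd_gcd h hpd))
      rw [Nat.div_div_self hd hN0]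
      exact h1 p hp (hpd.trans (Nat.div_dvd_of_dvd hd)) hpd'
  let f : {d : ℕ // Red N d} → {d : ℕ // Red N d} := fun d => ⟨N / d.1, inv d.2⟩
  have hf : Function.Involutive f := fun d => Subtype.ext (Nat.div_div_self d.2.1 hN0)
  have hfix : ∀ d, f d ≠ d := by
    intro d hd
    have h1 : N / d.1 = d.1 := congrArg Subtype.val hd
    have h2 := hco d.2.1
    rw [h1, Nat.coprime_self] at h2
    rw [h2, Nat.div_one] at h1
    omega
  haveI := Fintype.ofFinite {d : ℕ // Red N d}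
  rw [Nat.card_eq_fintype_card, even_iff_two_dvd]
  by_contra hodd
  haveI : Fact (Nat.Prime 2) := ⟨Nat.prime_two⟩
  obtain ⟨d, hd⟩ := Equiv.Perm.exists_fixed_point_of_prime (p := 2) (n := 1) hodd
    (σ := hf.toPerm f) (by
      ext d
      simp only [pow_one, sq, Equiv.Perm.mul_apply, Equiv.Perm.one_apply]
      exact congrArg Subtype.val (hf d))
  exact hfix d hd

/-- the number of the elements of the Selmer group is at least that of the kernel plus one -/
theorem nx_lt (h : Cl n) : Pool.Agent.NH4.XG.nx n.natAbs.primeFactors + 1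
    ≤ Nat.card (Sel (-n) (3 * n)) := by
  obtain ⟨a1, c1, a2, c2⟩ := sizes h
  have hn1 : n ≠ 1 := by have := h.md; omega
  have h1 : insert ((-3 : ℤ), n) ((fun d : ℤ => (d, (1 : ℤ))) '' AS (-n)) ⊆ Sel (-n) (3 * n) := by
    rintro x hx
    rcases hx with rfl | ⟨d, hd, rfl⟩
    · exact t0_mem h
    · exact as_mem h hd
  rw [Nat.card_coe_set_eq]
  refine le_trans ?_ (Set.ncard_le_ncard h1 (sel_finite h))
  rw [Set.ncard_insert_of_notMem ?_ (a1.image _), Set.ncard_image_of_injective, a2]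
  · intro a b hab
    exact congrArg Prod.fst hab
  · rintro ⟨d, hd, hd2⟩
    exact hn1 (congrArg Prod.snd hd2).symm

/-- the two-element kernel -/
theorem nx_two (h : Cl n) (h4 : Nat.card (Sel (-n) (3 * n)) = 4) :
    Pool.Agent.NH4.XG.nx n.natAbs.primeFactors = 2 := by
  have h1 := nx_lt h
  have hs : Squarefree n.natAbs := Int.squarefree_natAbs.2 h.sq
  have hm : n.natAbs % 4 = 3 := by have := h.md; have := h.pos; omega
  have h2 := nx_eq hs hm
  have h3 := card_red hs (by omega)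
  have h5 := red_even hs (by omega)
  have h6 : 2 ≤ Pool.Agent.NH4.XG.nx n.natAbs.primeFactors := by
    obtain ⟨a1, c1, a2, c2⟩ := sizes h
    rw [← a2]
    have hn2 : (1 : ℤ) ≠ -n := by have := h.pos; omega
    rw [← Set.ncard_pair hn2]
    refine Set.ncard_le_ncard ?_ a1
    rintro x (rfl | rfl)
    · exact one_as h
    · exact neg_as h
  rw [h3, ← h2] at h5
  obtain ⟨m, hm⟩ := h5
  omega

theorem sel_iff (h : Cl n) : Nat.card (Sel (-n) (3 * n)) = 4 ↔
    Pool.Agent.NH4.XG.nx n.natAbs.primeFactors = 2 :=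
  ⟨nx_two h, card_of_two h⟩

end Pool.Agent.H345.X24
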