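import Pool.Agent.H345.X24.Crd
import Pool.Agent.H345.X24.Two
import Pool.Graph.R_seed8.Y809.BSD14.Tam3
import Pool.Graph.R_pool_sql_team_seeded_63374d34.N971.MF.Stm2

/-!
# Twists of `X_0(24)`: points with singular reduction and the Tamagawa numbers
-/

set_option autoImplicit false
set_option linter.all false

open scoped Classical

open WeierstrassCurve

namespace Pool.Agent.H345.X24

open Pool.Agent.N971.MF (W)
open Pool.Agent.Y700 (SingRed E0 tam PtP)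
open Pool.Agent.Y809.BSD14

/-- the coordinates of the twist -/
theorem isE {K : Type} [Field K] [DecidableEq K] (n : ℕ) :
    IsE ((W n).map (Int.castRingHom K)).toAffine (-(2 * (n : K))) (-(3 * (n : K) ^ 2)) where
  a1 := by
    show (((0 : ℤ)) : K) = 0
    norm_num
  a3 := by
    show (((0 : ℤ)) : K) = 0
    norm_num
  a2 := by
    show (((-(2 * n) : ℤ)) : K) = _
    push_cast
    ring
  a4 := by
    show (((-(3 * n ^ 2) : ℤ)) : K) = _
    push_cast
    ring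
  a6 := by
    show (((0 : ℤ)) : K) = 0
    norm_num

section

variable {q : ℕ} [Fact q.Prime] {n : ℕ}

/-- singular reduction -/
theorem sing_iff' (x y : ℚ_[q]) : SingRed (W n) q x y ↔ ‖x‖ ≤ 1 ∧ ‖y‖ ≤ 1 ∧
    ‖3 * x ^ 2 - 4 * n * x - 3 * (n : ℚ_[q]) ^ 2‖ < 1 ∧ ‖2 * y‖ < 1 := by
  have c1 : (((W n).a₁ : ℤ) : ℚ_[q]) = 0 := (isE (K := ℚ_[q]) n).a1
  have c3 : (((W n).a₃ : ℤ) : ℚ_[q]) = 0 := (isE (K := ℚ_[q]) n).a3
  have c2 : (((W n).a₂ : ℤ) : ℚ_[q]) = -(2 * (n : ℚ_[q])) := (isE (K := ℚ_[q]) n).a2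
  have c4 : (((W n).a₄ : ℤ) : ℚ_[q]) = -(3 * (n : ℚ_[q]) ^ 2) := (isE (K := ℚ_[q]) n).a4
  unfold SingRed
  rw [c1, c2, c3, c4]
  have e1 : 0 * y - (3 * x ^ 2 + 2 * -(2 * (n : ℚ_[q])) * x + -(3 * (n : ℚ_[q]) ^ 2)) =
      -(3 * x ^ 2 - 4 * n * x - 3 * (n : ℚ_[q]) ^ 2) := by ring
  have e2 : 2 * y + 0 * x + 0 = 2 * y := by ring
  rw [e1, e2, norm_neg]

/-- membership in `E⁰` -/
theorem mem_E0 {P : PtP (W n) q} {x y : ℚ_[q]} (hP : At P x y) :
    P ∉ E0 (W n) q ↔ ‖x‖ ≤ 1 ∧ ‖y‖ ≤ 1 ∧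
      ‖3 * x ^ 2 - 4 * n * x - 3 * (n : ℚ_[q]) ^ 2‖ < 1 ∧ ‖2 * y‖ < 1 := by
  obtain ⟨h, rfl⟩ := hP
  rw [← sing_iff', t_E0]
  constructor
  · intro h1
    push Not at h1
    obtain ⟨x', y', h', e, hs⟩ := h1
    injection e with e1 e2
    rw [e1, e2]
    exact hs
  · intro hs h1
    exact h1 x y h rfl hs

/-- the equation of the points -/
theorem eq_pt {P : PtP (W n) q} {x y : ℚ_[q]} (hP : At P x y) :
    y ^ 2 = x * (x + n) * (x - 3 * n) := by
  have := hP.eqn (isE (K := ℚ_[q]) n)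
  linear_combination this

theorem ex_pt (hn : n ≠ 0) {x y : ℚ_[q]} (h : y ^ 2 = x * (x + n) * (x - 3 * n)) :
    ∃ P : PtP (W n) q, At P x y := by
  have hn' : (n : ℚ_[q]) ≠ 0 := by exact_mod_cast hn
  refine exists_pt (isE (K := ℚ_[q]) n) two_ne_zero ?_ ?_ ?_
  · exact neg_ne_zero.2 (mul_ne_zero (by norm_num) (pow_ne_zero _ hn'))
  · have : (-(2 * (n : ℚ_[q]))) ^ 2 - 4 * -(3 * (n : ℚ_[q]) ^ 2) = 16 * (n : ℚ_[q]) ^ 2 := by ring
    rw [this]
    exact mul_ne_zero (by norm_num) (pow_ne_zero _ hn')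
  · linear_combination h

/-- the two facts about the primes which divide the twist -/
structure BadP (q : ℕ) [Fact q.Prime] (n : ℕ) : Prop where
  q2 : q ≠ 2
  q3 : q ≠ 3
  nM : ‖(n : ℚ_[q])‖ = (q : ℝ)⁻¹

theorem BadP.of (h2 : q ≠ 2) (h3 : q ≠ 3) (h : q ∣ n) (hs : Squarefree n) : BadP q n := by
  refine ⟨h2, h3, ?_⟩
  have h1 := norm_M (M := (n : ℤ)) q (by exact_mod_cast h) (fun hd => ?_)
  · exact_mod_cast h1
  · have hd' : q * q ∣ n := by rw [← pow_two]; exact_mod_cast hd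
    have h1 := hs _ hd'
    rw [Nat.isUnit_iff] at h1
    exact (Fact.out : q.Prime).one_lt.ne' h1

variable (H : BadP q n)

include H

theorem BadP.lt : ‖(n : ℚ_[q])‖ < 1 := by
  have hq : (1 : ℝ) < q := by exact_mod_cast (Fact.out : q.Prime).one_lt
  rw [H.nM]
  exact inv_lt_one_of_one_lt₀ hq

theorem BadP.pos : 0 < ‖(n : ℚ_[q])‖ := by
  have hq : (1 : ℝ) < q := by exact_mod_cast (Fact.out : q.Prime).one_lt
  rw [H.nM]
  positivity

theorem BadP.ne : (n : ℚ_[q]) ≠ 0 := norm_pos_iff.1 H.pos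

theorem BadP.n0 : n ≠ 0 := fun h => H.ne (by rw [h, Nat.cast_zero])

theorem BadP.u2 : ‖(2 : ℚ_[q])‖ = 1 := norm2 H.q2

theorem BadP.u4 : ‖(4 : ℚ_[q])‖ = 1 := norm4 H.q2

theorem BadP.u3 : ‖(3 : ℚ_[q])‖ = 1 := by
  have : Nat.Coprime q 3 := (Nat.coprime_primes Fact.out (by norm_num)).2 H.q3
  exact_mod_cast norm_nat_eq_one q this

/-- at a prime which divides the twist the points outside `E⁰` are those with `|x| < 1` -/
theorem BadP.mem {P : PtP (W n) q} {x y : ℚ_[q]} (hP : At P x y) :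
    P ∉ E0 (W n) q ↔ ‖x‖ < 1 := by
  have he := eq_pt hP
  have hm := H.lt
  have i3 : ‖(3 : ℚ_[q])‖ ≤ 1 := H.u3.le
  have i4 : ‖(4 : ℚ_[q])‖ ≤ 1 := H.u4.le
  have i2 : ‖(2 : ℚ_[q])‖ ≤ 1 := H.u2.le
  rw [mem_E0 hP]
  constructor
  · rintro ⟨hx, hy, h1, h2⟩
    have h3 : ‖3 * x ^ 2‖ < 1 := by
      have e : 3 * x ^ 2 = (3 * x ^ 2 - 4 * n * x - 3 * (n : ℚ_[q]) ^ 2) +
        (4 * x + 3 * n) * n := by ring
      rw [e]
      exact ladd h1 (lmul (nadd (nmul i4 hx) (nmul i3 hm.le)) hm)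
    rw [norm_mul, H.u3, one_mul, norm_pow] at h3
    by_contra h
    rw [not_lt] at h
    have := one_le_pow₀ h (n := 2)
    linarith
  · intro hX
    have hy1 : ‖y‖ < 1 := by
      have h1 : ‖y ^ 2‖ < 1 := by
        rw [he]
        exact lmul' (lmul' hX (nadd hX.le hm.le)) (nsub hX.le (nmul i3 hm.le))
      rw [norm_pow] at h1
      by_contra h
      rw [not_lt] at h
      have := one_le_pow₀ h (n := 2)
      linarith
    have hm2 : ‖(n : ℚ_[q]) ^ 2‖ < 1 := by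
      rw [pow_two]
      exact lmul hm.le hm
    have hX2 : ‖x ^ 2‖ < 1 := by
      rw [pow_two]
      exact lmul hX.le hX
    exact ⟨hX.le, hy1.le, lsub (lsub (lmul i3 hX2) (lmul (nmul i4 hm.le) hX)) (lmul i3 hm2),
      lmul i2 hy1⟩

theorem BadP.tam : tam (W n) q = 4 := by
  have hW := isE (K := ℚ_[q]) n
  have hm := H.lt
  have hm0 := H.ne
  have hmp := H.pos
  have h2 : (2 : ℚ_[q]) ≠ 0 := two_ne_zero
  obtain ⟨T0, hT0⟩ := ex_pt (q := q) H.n0 (x := 0) (y := 0) (by ring)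
  obtain ⟨T1, hT1⟩ := ex_pt (q := q) H.n0 (x := n * (-1)) (y := 0) (by ring)
  obtain ⟨T2, hT2⟩ := ex_pt (q := q) H.n0 (x := n * 3) (y := 0) (by ring)
  have a0 := two_tors hW hT0
  have a1 := two_tors hW hT1
  have a2 := two_tors hW hT2
  have i1 : ‖(-1 : ℚ_[q])‖ ≤ 1 := by rw [norm_neg, norm_one]
  have i3 : ‖(3 : ℚ_[q])‖ ≤ 1 := H.u3.le
  have b0 : T0 ∉ E0 (W n) q := (H.mem hT0).2 (by rw [norm_zero]; norm_num)
  have b1 : T1 ∉ E0 (W n) q := (H.mem hT1).2 (lmul' hm i1)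
  have b2 : T2 ∉ E0 (W n) q := (H.mem hT2).2 (lmul' hm i3)
  -- the sums
  have key : ∀ (e e' e'' : ℚ_[q]) (T T' T'' : PtP (W n) q), At T (n * e) 0 →
      At T' (n * e') 0 → T'' ∉ E0 (W n) q → At T'' (n * e'') 0 → e ≠ e' →
      (e'' - e') * (e - e') = 3 * e' ^ 2 - 4 * e' - 3 → T + T' ∉ E0 (W n) q := by
    intro e e' e'' T T' T'' h h' hn h'' hne hr
    obtain ⟨X3, Y3, h3, h4⟩ := h.addT hW h' (fun hh => hne (mul_left_cancel₀ hm0 hh))
    have h5 : X3 = n * e'' := by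
      have h6 : (X3 - n * e'') * (n * (e - e')) = 0 := by
        linear_combination h4 - (n : ℚ_[q]) ^ 2 * hr
      have h7 : (n : ℚ_[q]) * (e - e') ≠ 0 := mul_ne_zero hm0 (sub_ne_zero.2 hne)
      exact sub_eq_zero.1 ((mul_eq_zero.1 h6).resolve_right h7)
    rw [H.mem h3, h5]
    exact (H.mem h'').1 hn
  have m01 : T0 + T1 ∉ E0 (W n) q := key 0 (-1) 3 T0 T1 T2 (by rw [mul_zero]; exact hT0) hT1 b2
    hT2 (by norm_num) (by norm_num)
  have m02 : T0 + T2 ∉ E0 (W n) q := key 0 3 (-1) T0 T2 T1 (by rw [mul_zero]; exact hT0) hT2 b1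
    hT1 (by norm_num) (by norm_num)
  have m12 : T1 + T2 ∉ E0 (W n) q := key (-1) 3 0 T1 T2 T0 hT1 hT2 b0
    (by rw [mul_zero]; exact hT0) (by norm_num) (by norm_num)
  have m10 : T1 + T0 ∉ E0 (W n) q := by rwa [add_comm]
  have m20 : T2 + T0 ∉ E0 (W n) q := by rwa [add_comm]
  have m21 : T2 + T1 ∉ E0 (W n) q := by rwa [add_comm]
  -- translation
  have tr : ∀ (r t Y : ℚ_[q]) (P T : PtP (W n) q), ‖3 * r ^ 2 - 4 * r - 3‖ = 1 → ‖r‖ ≤ 1 →
      At P (n * t) Y → At T (n * r) 0 → ‖t - r‖ < 1 →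
      r * (r + 1) * (r - 3) = 0 → P + T ∈ E0 (W n) q := by
    intro r t Y P T hr hr1 hP hT htr hroot
    by_cases he : t = r
    · have hY : Y = 0 := by
        have h3 := eq_pt hP
        rw [he] at h3
        have h4 : Y ^ 2 = 0 := by
          rw [h3]
          linear_combination (n : ℚ_[q]) ^ 3 * hroot
        exact pow_eq_zero_iff two_ne_zero |>.1 h4
      rw [hY, he] at hP
      rw [hP.ext hT, two_tors hW hT]
      exact AddSubgroup.zero_mem _
    · obtain ⟨X3, Y3, h3, h4⟩ := hP.addT hW hT (fun hh => he (mul_left_cancel₀ hm0 hh))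
      have htr0 : t - r ≠ 0 := sub_ne_zero.2 he
      have e5 : (X3 - n * r) * (t - r) = n * (3 * r ^ 2 - 4 * r - 3) := by
        apply mul_left_cancel₀ hm0
        linear_combination h4
      have e6 : ‖X3 - n * r‖ * ‖t - r‖ = (q : ℝ)⁻¹ := by
        rw [← norm_mul, e5, norm_mul, hr, mul_one, H.nM]
      by_contra hcon
      have h5 := (H.mem h3).1 hcon
      have h6 : ‖X3 - n * r‖ < 1 := lsub h5 (lmul' hm hr1)
      have h7 := norm_le_inv q htr
      have h8 : 0 < ‖t - r‖ := norm_pos_iff.2 htr0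
      have h9 : ‖X3 - n * r‖ * ‖t - r‖ < 1 * ‖t - r‖ := mul_lt_mul_of_pos_right h6 h8
      rw [e6, one_mul] at h9
      exact absurd h7 (not_le.2 h9)
  have p0 : ‖3 * (0 : ℚ_[q]) ^ 2 - 4 * 0 - 3‖ = 1 := by
    have : 3 * (0 : ℚ_[q]) ^ 2 - 4 * 0 - 3 = -3 := by norm_num
    rw [this, norm_neg, H.u3]
  have p1 : ‖3 * (-1 : ℚ_[q]) ^ 2 - 4 * (-1) - 3‖ = 1 := by
    have : 3 * (-1 : ℚ_[q]) ^ 2 - 4 * (-1) - 3 = 4 := by norm_num
    rw [this, H.u4]
  have p2 : ‖3 * (3 : ℚ_[q]) ^ 2 - 4 * 3 - 3‖ = 1 := by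
    have : 3 * (3 : ℚ_[q]) ^ 2 - 4 * 3 - 3 = 4 * 3 := by norm_num
    rw [this, norm_mul, H.u4, H.u3, one_mul]
  rw [Pool.Agent.Y700.tam]
  apply index_of (E0 (W n) q) ![0, T0, T1, T2]
  · intro i
    fin_cases i
    · exact add_zero _
    · exact a0
    · exact a1
    · exact a2
  · intro P
    by_cases hP : P ∈ E0 (W n) q
    · exact ⟨0, by simpa using hP⟩
    have hP0 : P ≠ 0 := fun h0 => hP (by rw [h0]; exact zero_mem _)
    obtain ⟨X, Y, hat⟩ := exists_at hP0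
    have hX := (H.mem hat).1 hP
    obtain ⟨t, rfl⟩ : ∃ t : ℚ_[q], X = n * t := ⟨X / n, by rw [mul_div_cancel₀ _ hm0]⟩
    have ht1 : ‖t‖ ≤ 1 := by
      have h1 := norm_le_inv q hX
      rw [norm_mul, ← H.nM] at h1
      by_contra h
      rw [not_le] at h
      nlinarith
    have he := eq_pt hat
    have ht2 : ‖t * (t + 1) * (t - 3)‖ < 1 := by
      have h3 : ‖t * (t + 1) * (t - 3)‖ ≤ 1 :=
        nmul (nmul ht1 (nadd ht1 norm_one.le)) (nsub ht1 H.u3.le)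
      refine lt_of_le_of_ne h3 fun h4 => ?_
      apply parity q Y
      rw [← norm_pow, he, ← H.nM]
      have e : (n : ℚ_[q]) * t * (n * t + n) * (n * t - 3 * n) =
        n ^ 3 * (t * (t + 1) * (t - 3)) := by ring
      rw [e, norm_mul, h4, mul_one, norm_pow]
    have hor : ‖t - 0‖ < 1 ∨ ‖t - (-1)‖ < 1 ∨ ‖t - 3‖ < 1 := by
      by_contra hcon
      rw [not_or, not_or, not_lt, not_lt, not_lt] at hcon
      obtain ⟨g3, g4, g5⟩ := hcon
      have : t * (t + 1) * (t - 3) = (t - 0) * ((t - (-1)) * (t - 3)) := by ring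
      rw [this, norm_mul, norm_mul] at ht2
      have h5 : 1 ≤ ‖t - (-1)‖ * ‖t - 3‖ := one_le_mul_of_one_le_of_one_le g4 g5
      have h6 := one_le_mul_of_one_le_of_one_le g3 h5
      linarith
    rcases hor with h3 | h3 | h3
    · exact ⟨1, tr 0 t Y P T0 p0 (by rw [norm_zero]; norm_num) hat (by rw [mul_zero]; exact hT0) h3
        (by norm_num)⟩
    · exact ⟨2, tr (-1) t Y P T1 p1 i1 hat hT1 h3 (by norm_num)⟩
    · exact ⟨3, tr 3 t Y P T2 p2 i3 hat hT2 h3 (by norm_num)⟩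
  · intro i j hij
    fin_cases i <;> fin_cases j <;> first | rfl | (exfalso; simp at hij; first | exact b0 hij | exact b1 hij | exact b2 hij | exact m01 hij | exact m02 hij | exact m12 hij | exact m10 hij | exact m20 hij | exact m21 hij)

end

/-- the index is two -/
theorem index_two {G : Type} [AddCommGroup G] (H : AddSubgroup G) (T : G) (h2 : T + T = 0)
    (hT : T ∉ H) (hs : ∀ P, P ∉ H → P + T ∈ H) : H.index = 2 := by
  apply index_of H ![0, T]
  · intro i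
    fin_cases i
    · exact add_zero _
    · exact h2
  · intro P
    by_cases hP : P ∈ H
    · exact ⟨0, by simpa using hP⟩
    · exact ⟨1, by simpa using hs P hP⟩
  · intro i j hij
    fin_cases i <;> fin_cases j <;> first | rfl | (exfalso; simp at hij; exact hT hij)

/-- the Tamagawa number at three -/
theorem tam_three {n : ℕ} (hn : ¬ 3 ∣ n) [Fact (Nat.Prime 3)] : tam (W n) 3 = 2 := by
  have hW := isE (K := ℚ_[3]) n
  have hn0 : n ≠ 0 := fun h => hn (h ▸ dvd_zero 3)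
  have nn : ‖(n : ℚ_[3])‖ = 1 :=
    norm_nat_eq_one 3 ((Nat.Prime.coprime_iff_not_dvd Nat.prime_three).2 hn)
  have n3' : ‖(3 : ℚ_[3])‖ = 1 / 3 := by
    have := Padic.norm_p (p := 3)
    simpa using this
  have n3 : ‖(3 : ℚ_[3])‖ < 1 := by rw [n3']; norm_num
  have n2' : ‖(2 : ℚ_[3])‖ = 1 := norm2 (by norm_num)
  have n4' : ‖(4 : ℚ_[3])‖ = 1 := norm4 (by norm_num)
  have mem : ∀ {P : PtP (W n) 3} {x y : ℚ_[3]}, At P x y → (P ∉ E0 (W n) 3 ↔ ‖x‖ < 1) := by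
    intro P x y hP
    rw [mem_E0 hP]
    have he := eq_pt hP
    constructor
    · rintro ⟨hx, hy, h1, h2⟩
      have h3 : ‖4 * n * x‖ < 1 := by
        have e : 4 * n * x = 3 * (x ^ 2 - (n : ℚ_[3]) ^ 2) -
          (3 * x ^ 2 - 4 * n * x - 3 * (n : ℚ_[3]) ^ 2) := by ring
        rw [e]
        exact lsub (lmul' n3 (nsub (npow hx 2) (npow nn.le 2))) h1
      rwa [norm_mul, norm_mul, n4', nn, one_mul, one_mul] at h3
    · intro hx
      have hy1 : ‖y‖ < 1 := by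
        have h1 : ‖y ^ 2‖ < 1 := by
          rw [he]
          exact lmul' (lmul' hx (nadd hx.le nn.le)) (nsub hx.le (nmul n3.le nn.le))
        rw [norm_pow] at h1
        by_contra h
        rw [not_lt] at h
        have := one_le_pow₀ h (n := 2)
        linarith
      exact ⟨hx.le, hy1.le, lsub (lsub (lmul' n3 (npow hx.le 2)) (lmul (nmul n4'.le nn.le) hx))
        (lmul' n3 (npow nn.le 2)), lmul n2'.le hy1⟩
  obtain ⟨T, hT⟩ := ex_pt (q := 3) hn0 (x := 0) (y := 0) (by ring)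
  have hTn : T ∉ E0 (W n) 3 := (mem hT).2 (by rw [norm_zero]; norm_num)
  apply index_two _ T (two_tors hW hT) hTn
  intro P hP
  have hP0 : P ≠ 0 := fun h0 => hP (by rw [h0]; exact zero_mem _)
  obtain ⟨x, y, hat⟩ := exists_at hP0
  have hx := (mem hat).1 hP
  by_cases hx0 : x = 0
  · have hy : y = 0 := by
      have h3 := eq_pt hat
      rw [hx0] at h3
      have h4 : y ^ 2 = 0 := by
        rw [h3]
        ring
      exact pow_eq_zero_iff two_ne_zero |>.1 h4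
    rw [hx0, hy] at hat
    rw [hat.ext hT, two_tors hW hT]
    exact AddSubgroup.zero_mem _
  · obtain ⟨x3, y3, h3, h4⟩ := hat.addT hW hT hx0
    by_contra hcon
    have h5 := (mem h3).1 hcon
    have e5 : x3 * x = -3 * (n : ℚ_[3]) ^ 2 := by linear_combination h4
    have e6 : ‖x3‖ * ‖x‖ = 1 / 3 := by
      rw [← norm_mul, e5, norm_mul, norm_neg, norm_pow, nn, n3']
      norm_num
    have h7 : ‖x‖ ≤ ((3 : ℕ) : ℝ)⁻¹ := norm_le_inv 3 hx
    push_cast at h7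
    have h8 : 0 < ‖x‖ := norm_pos_iff.2 hx0
    have h9 : ‖x3‖ * ‖x‖ < 1 * ‖x‖ := mul_lt_mul_of_pos_right h5 h8
    rw [e6, one_mul] at h9
    linarith

/-- the sum of two units -/
theorem sum_odd {x y : ℚ_[2]} (hx : ‖x‖ = 1) (hy : ‖y‖ = 1) : ‖x + y‖ ≤ 1 / 2 := by
  obtain ⟨a, rfl⟩ : ∃ a : ℤ_[2], (a : ℚ_[2]) = x := ⟨⟨x, hx.le⟩, rfl⟩
  obtain ⟨b, rfl⟩ : ∃ b : ℤ_[2], (b : ℚ_[2]) = y := ⟨⟨y, hy.le⟩, rfl⟩
  apply le_half
  have key : ∀ s t : ZMod 2, s ≠ 0 → t ≠ 0 → s + t = 0 := by decide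
  have ha : PadicInt.toZMod a ≠ 0 := by
    intro h
    have := toZMod_eq_zero.1 h
    rw [PadicInt.norm_def] at this
    linarith
  have hb : PadicInt.toZMod b ≠ 0 := by
    intro h
    have := toZMod_eq_zero.1 h
    rw [PadicInt.norm_def] at this
    linarith
  have h1 : PadicInt.toZMod (a + b) = 0 := by rw [map_add]; exact key _ _ ha hb
  have h2 := toZMod_eq_zero.1 h1
  rw [PadicInt.norm_def] at h2
  push_cast at h2
  exact h2

/-- the Tamagawa number at two -/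
theorem tam_two {n : ℕ} (hn : n % 8 = 3) [Fact (Nat.Prime 2)] : tam (W n) 2 = 2 := by
  have hW := isE (K := ℚ_[2]) n
  have hn0 : n ≠ 0 := by omega
  have nn : ‖(n : ℚ_[2])‖ = 1 := by
    have := norm_odd (n := (n : ℤ)) (by omega)
    exact_mod_cast this
  have n3' : ‖(3 : ℚ_[2])‖ = 1 := by
    have := norm_odd (n := 3) (by norm_num)
    exact_mod_cast this
  have n2' := norm_two
  have n4' := norm_four
  have mem : ∀ {P : PtP (W n) 2} {x y : ℚ_[2]}, At P x y → (P ∉ E0 (W n) 2 ↔ ‖x‖ = 1) := by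
    intro P x y hP
    rw [mem_E0 hP]
    have he := eq_pt hP
    constructor
    · rintro ⟨hx, hy, h1, h2⟩
      refine le_antisymm hx (not_lt.1 fun hlt => ?_)
      have h3 : ‖3 * (n : ℚ_[2]) ^ 2‖ < 1 := by
        have e : 3 * (n : ℚ_[2]) ^ 2 = (3 * x - 4 * n) * x -
          (3 * x ^ 2 - 4 * n * x - 3 * (n : ℚ_[2]) ^ 2) := by ring
        rw [e]
        exact lsub (lmul (nsub (nmul n3'.le hx) (nmul (by rw [n4']; norm_num) nn.le)) hlt) h1
      rw [norm_mul, norm_pow, n3', nn] at h3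
      norm_num at h3
    · intro hx
      have hy1 : ‖y‖ ≤ 1 := by
        have h1 : ‖y ^ 2‖ ≤ 1 := by
          rw [he]
          exact nmul (nmul hx.le (nadd hx.le nn.le)) (nsub hx.le (nmul n3'.le nn.le))
        rw [norm_pow] at h1
        by_contra h
        rw [not_le] at h
        have : 1 < ‖y‖ ^ 2 := one_lt_pow₀ h (by norm_num)
        linarith
      have h2lt : ‖(2 : ℚ_[2])‖ < 1 := by rw [n2']; norm_num
      have hxn : ‖x + n‖ < 1 := by
        have hh := sum_odd hx nn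
        linarith
      refine ⟨hx.le, hy1, ?_, lmul' h2lt hy1⟩
      have e : 3 * x ^ 2 - 4 * n * x - 3 * (n : ℚ_[2]) ^ 2 = 3 * (x - n) * (x + n) - 2 * (2 * n * x) := by
        ring
      rw [e]
      exact lsub (lmul (nmul n3'.le (nsub hx.le nn.le)) hxn)
        (lmul' h2lt (nmul (nmul h2lt.le nn.le) hx.le))
  obtain ⟨T, hT⟩ := ex_pt (q := 2) hn0 (x := -n) (y := 0) (by ring)
  have hTn : T ∉ E0 (W n) 2 := (mem hT).2 (by rw [norm_neg]; exact nn)
  apply index_two _ T (two_tors hW hT) hTn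
  intro P hP
  have hP0 : P ≠ 0 := fun h0 => hP (by rw [h0]; exact zero_mem _)
  obtain ⟨x, y, hat⟩ := exists_at hP0
  have hx := (mem hat).1 hP
  have he := eq_pt hat
  by_cases hx0 : x = -n
  · have hy : y = 0 := by
      rw [hx0] at he
      have h4 : y ^ 2 = 0 := by
        rw [he]
        ring
      exact pow_eq_zero_iff two_ne_zero |>.1 h4
    rw [hx0, hy] at hat
    rw [hat.ext hT, two_tors hW hT]
    exact AddSubgroup.zero_mem _
  · obtain ⟨x3, y3, h3, h4⟩ := hat.addT hW hT hx0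
    by_contra hcon
    have h5 := (mem h3).1 hcon
    have e5 : (x3 + n) * (x + n) = 4 * (n : ℚ_[2]) ^ 2 := by linear_combination h4
    have e6 : ‖x3 + n‖ * ‖x + n‖ = 1 / 4 := by
      rw [← norm_mul, e5, norm_mul, norm_pow, nn, n4']
      norm_num
    have h6 := sum_odd h5 nn
    have h7 := sum_odd hx nn
    have h8 : ‖x + n‖ = 1 / 2 := by nlinarith [norm_nonneg (x + (n : ℚ_[2])), norm_nonneg (x3 + (n : ℚ_[2]))]
    refine excl (n := n) (by omega) (u := (x + n) / 2) (s := y / 2) ?_ ?_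
    · rw [norm_div, h8, n2']
      norm_num
    · push_cast
      field_simp
      linear_combination he

end Pool.Agent.H345.X24
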